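import Pool.Agent.Lib.ZT.Lv

/-!
# The `p`-adic filtration of the torus, residues
-/

set_option autoImplicit false

namespace Pool.Agent.ZT

open NumberField IsDedekindDomain Polynomial Pool.Agent.ZD WithZero

section gen

variable {L : Type} [Field L] [NumberField L]

theorem val_nat_le (w : HeightOneSpectrum (𝓞 L)) (n : ℕ) : w.valuation L (n : L) ≤ 1 := by
  have h := w.valuation_le_one (K := L) (n : 𝓞 L)
  have h2 : (algebraMap (𝓞 L) L) (n : 𝓞 L) = (n : L) := map_natCast _ n
  rw [← h2]
  exact h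

theorem val_sum_le (w : HeightOneSpectrum (𝓞 L)) {ι : Type} (s : Finset ι) (f : ι → L) {r : ℤᵐ⁰}
    (h : ∀ i ∈ s, w.valuation L (f i) ≤ r) : w.valuation L (∑ i ∈ s, f i) ≤ r :=
  Valuation.map_sum_le _ h

/-- `p`-th powers: `y ^ p - 1` has the valuation of `p (y - 1)` -/
theorem val_pow_sub (w : HeightOneSpectrum (𝓞 L)) {p : ℕ} (hp : p.Prime) (p2 : p ≠ 2)
    (hwp : w.valuation L (p : L) = exp (-1)) {y : L} (hy : w.valuation L (y - 1) < 1) :
    w.valuation L (y ^ p - 1) = exp (-1) * w.valuation L (y - 1) := by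
  set u := y - 1 with hu
  have hy1 : w.valuation L y ≤ 1 := by
    have h1 : y = u + 1 := by rw [hu]; ring
    rw [h1]
    exact (Valuation.map_add _ _ _).trans (max_le hy.le (by rw [map_one]))
  have hgeo : ∀ n : ℕ, y ^ n - 1 = u * ∑ j ∈ Finset.range n, y ^ j := by
    intro n
    rw [mul_comm, hu, geom_sum_mul]
  obtain ⟨c, hc⟩ : ∃ c : ℕ → L, ∀ n, c n = ∑ j ∈ Finset.range n, y ^ j := ⟨_, fun _ => rfl⟩
  have hc1 : ∀ n, w.valuation L (c n) ≤ 1 := by
    intro n
    rw [hc]
    refine val_sum_le w _ _ fun i _ => ?_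
    rw [map_pow]
    exact pow_le_one₀ zero_le hy1
  have hc2 : ∀ n, c n = n + u * ∑ j ∈ Finset.range n, c j := by
    intro n
    rw [hc, Finset.mul_sum]
    have h1 : ∀ j ∈ Finset.range n, y ^ j = 1 + u * c j := by
      intro j _
      rw [hc, ← hgeo]
      ring
    rw [Finset.sum_congr rfl h1, Finset.sum_add_distrib]
    simp
  -- the sum `1 + y + .. + y ^ (p - 1)`
  have hS : c p = p + u * (((∑ j ∈ Finset.range p, j : ℕ) : L) +
      u * ∑ j ∈ Finset.range p, ∑ i ∈ Finset.range j, c i) := by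
    rw [hc2 p]
    congr 2
    rw [Finset.sum_congr rfl fun j _ => hc2 j, Finset.sum_add_distrib, Finset.mul_sum]
    push_cast
    rfl
  obtain ⟨m, hm⟩ : ∃ m : ℕ, (∑ j ∈ Finset.range p, j) = p * m := by
    obtain ⟨k, hk⟩ := hp.eq_two_or_odd'.resolve_left p2
    refine ⟨k, ?_⟩
    have h1 := Finset.sum_range_id_mul_two p
    have h2 : p - 1 = 2 * k := by omega
    rw [h2] at h1
    nlinarith
  have hsmall : w.valuation L (u * (((∑ j ∈ Finset.range p, j : ℕ) : L) +
      u * ∑ j ∈ Finset.range p, ∑ i ∈ Finset.range j, c i)) < exp (-1) := by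
    rw [map_mul]
    have h1 : w.valuation L (((∑ j ∈ Finset.range p, j : ℕ) : L) +
        u * ∑ j ∈ Finset.range p, ∑ i ∈ Finset.range j, c i) ≤ exp (-1) := by
      refine (Valuation.map_add _ _ _).trans (max_le ?_ ?_)
      · rw [hm]
        push_cast
        rw [map_mul, hwp]
        exact mul_le_of_le_one_right zero_le (val_nat_le w m)
      · rw [map_mul]
        refine (mul_le_of_le_one_right zero_le ?_).trans ((lt_one_iff_le_exp _).1 hy)
        refine val_sum_le w _ _ fun j _ => ?_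
        exact val_sum_le w _ _ fun i _ => hc1 i
    calc w.valuation L u * _ ≤ w.valuation L u * exp (-1) := by gcongr
      _ < 1 * exp (-1) := by
        refine mul_lt_mul_of_pos_right hy ?_
        exact exp_pos
      _ = exp (-1) := one_mul _
  have hcp : w.valuation L (c p) = exp (-1) := by
    rw [hS, Valuation.map_add_eq_of_lt_left]
    · exact hwp
    · rw [hwp]
      exact hsmall
  rw [hgeo, ← hc, map_mul, hcp, mul_comm]

/-- in residue characteristic `p` a `p`-th power is one only for one -/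
theorem val_sub_lt_of_pow (w : HeightOneSpectrum (𝓞 L)) {p : ℕ} (hp : p.Prime)
    (hwp : w.valuation L (p : L) < 1) {y : L} (hy1 : w.valuation L y ≤ 1)
    (h : w.valuation L (y ^ p - 1) < 1) : w.valuation L (y - 1) < 1 := by
  let A := (w.valuation L).valuationSubring
  have hyA : y ∈ A := hy1
  obtain ⟨r₀, hr⟩ := exists_add_pow_prime_eq hp (⟨y, hyA⟩ - 1 : A) 1
  obtain ⟨r, hr'⟩ : ∃ r : A, r = (⟨y, hyA⟩ - 1) * 1 * r₀ := ⟨_, rfl⟩
  have h1 : y ^ p = (y - 1) ^ p + 1 + p * (r : L) := by
    have h2 := congrArg (Subtype.val) hr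
    rw [sub_add_cancel] at h2
    push_cast at h2
    rw [one_pow] at h2
    rw [h2, hr']
    push_cast
    ring
  have hr1 : w.valuation L (r : L) ≤ 1 := r.2
  have h3 : (y - 1) ^ p = (y ^ p - 1) - p * (r : L) := by
    rw [h1]
    ring
  have h4 : w.valuation L ((y - 1) ^ p) < 1 := by
    rw [h3]
    refine (Valuation.map_sub _ _ _).trans_lt (max_lt h ?_)
    rw [map_mul]
    exact (mul_le_of_le_one_right zero_le hr1).trans_lt hwp
  rw [map_pow] at h4
  by_contra h5
  exact absurd h4 (not_lt.2 (one_le_pow₀ (not_lt.1 h5)))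

end gen

namespace Tor

variable {K L : Type} [Field K] [NumberField K] [Field L] [NumberField L] [Algebra K L] {q : ℕ}
  (D : Tor K L q)

/-- **The filtration at `v`**, `v` over the odd prime `p` and unramified in `L / ℚ` -/
theorem fil {p : ℕ} (hp : p.Prime) (p2 : p ≠ 2) {v : HeightOneSpectrum (𝓞 K)}
    (hv : ∀ w ∈ abv L v, w.valuation L (p : L) = exp (-1)) : Fil p (D.Fv v) := by
  constructor
  · intro n x hx w hw
    refine (hx w hw).trans ?_
    rw [exp_le_exp]
    push_cast
    omega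
  · intro n y hy hn w hw
    have h1 := hy w hw
    have h2 : w.valuation L (D.el y - 1) < 1 := by
      refine h1.trans_lt ?_
      rw [← exp_zero, exp_lt_exp]
      omega
    rw [el_nsmul, val_pow_sub w hp p2 (hv w hw) h2]
    calc exp (-1) * w.valuation L (D.el y - 1) ≤ exp (-1) * exp (-(n : ℤ)) := by gcongr
      _ = exp (-((n + 1 : ℕ) : ℤ)) := by
        rw [← exp_add]
        congr 1
        push_cast
        ring
  · intro n y hy hn w hw
    have hwp : w.valuation L (p : L) < 1 := by
      rw [hv w hw, ← exp_zero, exp_lt_exp]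
      omega
    have h0 := hy w hw
    have h1 : w.valuation L (D.el y ^ p - 1) < 1 := by
      rw [← el_nsmul]
      refine h0.trans_lt ?_
      rw [← exp_zero, exp_lt_exp]
      push_cast
      omega
    have hy1 : w.valuation L (D.el y) = 1 := by
      have h3 := D.el_one_of_sub (S := abv L v) (fun g _ hw => cj_mem_abv g hw) (x := p • y)
        (fun w hw => (hy w hw).trans (exp_neg_le_one _)) w hw
      rw [el_nsmul, map_pow] at h3
      exact one_of_pow hp.ne_zero h3
    have h2 := val_sub_lt_of_pow w hp hwp hy1.le h1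
    rw [el_nsmul, val_pow_sub w hp p2 (hv w hw) h2] at h0
    have h3 : exp (-1) * w.valuation L (D.el y - 1) ≤ exp (-1) * exp (-(n : ℤ)) := by
      refine h0.trans (le_of_eq ?_)
      rw [← exp_add]
      congr 1
      push_cast
      ring
    exact (mul_le_mul_iff_right₀ (exp_pos : (0 : ℤᵐ⁰) < exp (-1))).1 h3

/-- separatedness -/
theorem fil_sep {v : HeightOneSpectrum (𝓞 K)} {y : Additive D.T} (hy : y ≠ 0) : ∃ n, y ∉ D.Fv v n := by
  obtain ⟨w, hw⟩ := abv_nonempty (L := L) v
  have h1 : D.el y - 1 ≠ 0 := by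
    intro h
    apply hy
    apply D.el_inj
    rw [el_zero]
    exact sub_eq_zero.1 h
  have h2 : w.valuation L (D.el y - 1) ≠ 0 := (Valuation.ne_zero_iff _).2 h1
  obtain ⟨l, hl⟩ : ∃ l : ℤ, w.valuation L (D.el y - 1) = exp l := ⟨_, (exp_log h2).symm⟩
  refine ⟨(-l).toNat + 1, fun h => ?_⟩
  have h3 := h w hw
  rw [hl, exp_le_exp] at h3
  push_cast at h3
  have := Int.self_le_toNat (-l)
  omega

end Tor

end Pool.Agent.ZT
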