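import Pool.Agent.Lib.ZT.Defs

/-!
# The torus is a module over `Lam q`
-/

set_option autoImplicit false

namespace Pool.Agent.ZT

open NumberField IsDedekindDomain Polynomial Pool.Agent.ZD WithZero

namespace Tor

variable {K L : Type} [Field K] [NumberField K] [Field L] [NumberField L] [Algebra K L] {q : ℕ}
  (D : Tor K L q)

theorem comm_gen (g : L ≃ₐ[K] L) : g * D.σ = D.σ * g ∧ g * D.τ = D.τ * g := by
  have h1 : ∀ i : ℕ, D.σ ^ i * D.τ = D.τ * D.σ ^ i := fun i =>
    (Commute.pow_left (show Commute D.σ D.τ from D.comm) i)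
  obtain ⟨i, _, rfl | rfl⟩ := D.gen g
  · exact ⟨(Commute.pow_self D.σ i), h1 i⟩
  · constructor
    · rw [mul_assoc, ← D.comm, ← mul_assoc, (Commute.pow_self D.σ i).eq, mul_assoc]
    · rw [mul_assoc, ← mul_assoc D.τ, ← h1 i, mul_assoc]

include D in
theorem comm_all (g h : L ≃ₐ[K] L) : g * h = h * g := by
  obtain ⟨hs, ht⟩ := D.comm_gen g
  have h1 : ∀ i : ℕ, g * D.σ ^ i = D.σ ^ i * g := fun i =>
    (Commute.pow_right (show Commute g D.σ from hs) i)
  obtain ⟨i, _, rfl | rfl⟩ := D.gen h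
  · exact h1 i
  · rw [← mul_assoc, h1 i, mul_assoc, ht, mul_assoc]

include D in
theorem app_comm (g h : L ≃ₐ[K] L) (x : L) : g (h x) = h (g x) :=
  DFunLike.congr_fun (D.comm_all g h) x

theorem un_mem (g : L ≃ₐ[K] L) {x : Lˣ} (hx : x ∈ D.T) : Units.map (g : L →* L) x ∈ D.T := by
  rw [mem_T] at hx ⊢
  obtain ⟨h1, h2⟩ := hx
  constructor
  · change g (x : L) * D.τ (g (x : L)) = 1
    rw [D.app_comm D.τ g, ← map_mul, h1, map_one]
  · change ∏ i ∈ Finset.range q, (D.σ ^ i) (g (x : L)) = 1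
    simp only [D.app_comm _ g]
    rw [← map_prod, h2, map_one]

/-- the action of `g` on the torus -/
def gT (g : L ≃ₐ[K] L) : D.T →* D.T :=
  ((Units.map (g : L →* L)).comp D.T.subtype).codRestrict D.T fun x => D.un_mem g x.2

theorem gT_coe (g : L ≃ₐ[K] L) (x : D.T) : ((D.gT g x : Lˣ) : L) = g ((x : Lˣ) : L) := rfl

/-- `σ` as an endomorphism -/
def sg : Module.End ℤ (Additive D.T) := (MonoidHom.toAdditive (D.gT D.σ)).toIntLinearMap

theorem sg_pow_apply (i : ℕ) (x : Additive D.T) :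
    (D.sg ^ i) x = Additive.ofMul (D.gT (D.σ ^ i) (Additive.toMul x)) := by
  induction i generalizing x with
  | zero => rfl
  | succ i ih =>
    rw [pow_succ, Module.End.mul_apply, ih]
    rfl

theorem sg_sum : ∑ i ∈ Finset.range q, D.sg ^ i = 0 := by
  refine LinearMap.ext fun x => ?_
  rw [LinearMap.sum_apply, LinearMap.zero_apply]
  simp only [sg_pow_apply]
  apply Additive.toMul.injective
  rw [toMul_sum]
  apply Subtype.ext
  apply Units.ext
  have h2 := (D.mem_T.1 (Additive.toMul x).2).2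
  rw [Subgroup.val_finset_prod, Units.coe_prod]
  exact h2

theorem sg_cyc : aeval D.sg (cyclotomic q ℤ) = 0 := by
  have : Fact q.Prime := ⟨D.pq⟩
  rw [cyclotomic_prime, map_sum]
  simp only [map_pow, aeval_X]
  exact D.sg_sum

/-- the action of `Lam q` on the torus -/
noncomputable def act : Lam q →+* Module.End ℤ (Additive D.T) :=
  Ideal.Quotient.lift _ (aeval D.sg : ℤ[X] →ₐ[ℤ] Module.End ℤ (Additive D.T)).toRingHom (by
    intro a ha
    obtain ⟨b, rfl⟩ := Ideal.mem_span_singleton.1 ha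
    change aeval D.sg (cyclotomic q ℤ * b) = 0
    rw [map_mul, D.sg_cyc, zero_mul])

noncomputable instance : Module (Lam q) (Additive D.T) := Module.compHom _ D.act

theorem smul_def (k : Lam q) (x : Additive D.T) : k • x = D.act k x := rfl

theorem act_mk (f : ℤ[X]) : D.act (AdjoinRoot.mk (cyclotomic q ℤ) f) = aeval D.sg f := rfl

theorem mk_smul (f : ℤ[X]) (x : Additive D.T) :
    (AdjoinRoot.mk (cyclotomic q ℤ) f : Lam q) • x = aeval D.sg f x := rfl

theorem root_smul (x : Additive D.T) :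
    (AdjoinRoot.root (cyclotomic q ℤ) : Lam q) • x = Additive.ofMul (D.gT D.σ (Additive.toMul x)) := by
  rw [AdjoinRoot.root, mk_smul, aeval_X]
  rfl

end Tor

end Pool.Agent.ZT
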