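import Pool.Agent.Lib.ZT.Res
import Pool.Agent.Lib.ZD.AuxP

/-!
# The structure of the part of the torus over a completely split prime
-/

set_option autoImplicit false

namespace Pool.Agent.ZT

open NumberField IsDedekindDomain Polynomial Pool.Agent.ZD WithZero

section gen

variable {K L : Type} [Field K] [NumberField K] [Field L] [NumberField L] [Algebra K L]

theorem ord_cj (g : L ≃ₐ[K] L) (w : HeightOneSpectrum (𝓞 L)) (x : L) :
    ord (cj g w) (g x) = ord w x := by
  unfold ord
  rw [cj_val]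

theorem ord_app (g : L ≃ₐ[K] L) (w : HeightOneSpectrum (𝓞 L)) (x : L) :
    ord w (g x) = ord (cj g⁻¹ w) x := by
  unfold ord
  rw [val_app]

theorem ord_inv (w : HeightOneSpectrum (𝓞 L)) {x : L} (hx : x ≠ 0) : ord w x⁻¹ = -ord w x := by
  have h := ord_mul w hx (inv_ne_zero hx)
  rw [mul_inv_cancel₀ hx, ord_one] at h
  linarith

/-- transitivity of the Galois group on the primes over `v` -/
theorem cj_trans [IsGalois K L] {v : HeightOneSpectrum (𝓞 K)} {w w' : HeightOneSpectrum (𝓞 L)}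
    (hw : w ∈ abv L v) (hw' : w' ∈ abv L v) : ∃ g : L ≃ₐ[K] L, cj g w = w' := by
  have := liesOver hw
  have := liesOver hw'
  have := w.isPrime
  have := w'.isPrime
  obtain ⟨g, hg⟩ := Ideal.exists_smul_eq_of_isGaloisGroup v.asIdeal w.asIdeal w'.asIdeal Gal(L/K)
  refine ⟨g, ?_⟩
  apply HeightOneSpectrum.ext
  rw [← hg]
  ext r
  have h1 := mem_cj_pow g w 1 ((gO g).symm r)
  rw [pow_one, pow_one, RingEquiv.apply_symm_apply] at h1
  rw [h1, Ideal.mem_pointwise_smul_iff_inv_smul_mem]
  exact Iff.rfl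

theorem cj_free [IsGalois K L] {v : HeightOneSpectrum (𝓞 K)} (hv : v ∈ Spl K L)
    {w : HeightOneSpectrum (𝓞 L)} (hw : w ∈ abv L v) {g g' : L ≃ₐ[K] L} (h : cj g w = cj g' w) :
    g = g' := by
  have hfin := finite_abv (L := L) v
  have : Finite (abv L v) := hfin
  let f : (L ≃ₐ[K] L) → abv L v := fun g => ⟨cj g w, cj_mem_abv g hw⟩
  have hs : Function.Surjective f := by
    rintro ⟨w', hw'⟩
    obtain ⟨g, hg⟩ := cj_trans hw hw'
    exact ⟨g, Subtype.ext hg⟩
  have hc : Nat.card (L ≃ₐ[K] L) = Nat.card (abv L v) := by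
    rw [IsGalois.card_aut_eq_finrank, Nat.card_coe_set_eq]
    exact hv.symm
  have hb : Function.Bijective f := (Nat.bijective_iff_surjective_and_card f).2 ⟨hs, hc⟩
  exact hb.1 (Subtype.ext h)

/-- a generator of a power of a prime -/
theorem exists_gen (w : HeightOneSpectrum (𝓞 L)) : ∃ π : 𝓞 L, π ≠ 0 ∧
    ord w (π : L) = classNumber L ∧ ∀ w', w' ≠ w → ord w' (π : L) = 0 := by
  have h1 : (ClassGroup.mk0 ⟨w.asIdeal, mem_nonZeroDivisors_of_ne_zero w.ne_bot⟩) ^
      (classNumber L) = 1 := by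
    unfold classNumber
    exact pow_card_eq_one
  rw [← map_pow, ClassGroup.mk0_eq_one_iff] at h1
  obtain ⟨π, hπ⟩ := h1.principal
  have hπ' : w.asIdeal ^ (classNumber L) = Ideal.span {π} := hπ
  have hπ0 : π ≠ 0 := by
    rintro rfl
    rw [Ideal.span_singleton_zero] at hπ'
    exact pow_ne_zero _ w.ne_bot hπ'
  refine ⟨π, hπ0, ?_, fun w' hw' => ?_⟩
  · unfold ord
    rw [HeightOneSpectrum.valuation_of_algebraMap, w.intValuation_eq_exp_neg_multiplicity hπ0, ← hπ',
      log_exp, neg_neg]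
    congr 1
    exact multiplicity_pow_self w.ne_bot (by
      rw [Ideal.isUnit_iff]
      exact w.isPrime.ne_top) _
  · unfold ord
    rw [HeightOneSpectrum.valuation_of_algebraMap]
    have h2 : w'.intValuation π = 1 := by
      rw [HeightOneSpectrum.intValuation_eq_one_iff]
      intro h3
      apply hw'
      have h4 : Ideal.span {π} ≤ w'.asIdeal := (Ideal.span_singleton_le_iff_mem _).2 h3
      rw [← hπ'] at h4
      have h5 := w'.isPrime.le_of_pow_le h4
      exact (HeightOneSpectrum.ext ((w.isMaximal.eq_of_le w'.isPrime.ne_top h5))).symm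
    rw [h2, log_one, neg_zero]

end gen

namespace Tor

variable {K L : Type} [Field K] [NumberField K] [Field L] [NumberField L] [Algebra K L] {q : ℕ}
  (D : Tor K L q)

/-! ### the group -/

theorem σ_ne_one : D.σ ≠ 1 := by
  intro h
  have h1 : ∀ g : L ≃ₐ[K] L, g = 1 ∨ g = D.τ := by
    intro g
    obtain ⟨i, _, hg | hg⟩ := D.gen g
    · left; rw [hg, h, one_pow]
    · right; rw [hg, h, one_pow, one_mul]
  have h2 : Nat.card (L ≃ₐ[K] L) ≤ 2 := by
    have h3 : (Set.univ : Set (L ≃ₐ[K] L)) ⊆ {1, D.τ} := fun g _ => by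
      rcases h1 g with rfl | rfl
      · exact Set.mem_insert _ _
      · exact Set.mem_insert_of_mem _ rfl
    rw [← Set.ncard_univ]
    exact (Set.ncard_le_ncard h3 (Set.toFinite _)).trans (Set.ncard_insert_le _ _ |>.trans (by
      rw [Set.ncard_singleton]))
  rw [D.card] at h2
  have := D.pq.two_le
  omega

theorem order_σ : orderOf D.σ = q := by
  have : Fact q.Prime := ⟨D.pq⟩
  exact orderOf_eq_prime D.σq D.σ_ne_one

theorem σ_pow_inj {i j : ℕ} (hi : i < q) (hj : j < q) (h : D.σ ^ i = D.σ ^ j) : i = j := by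
  refine pow_injOn_Iio_orderOf ?_ ?_ h
  · rw [D.order_σ]; exact hi
  · rw [D.order_σ]; exact hj

theorem τ_ne (m : ℕ) : D.τ ≠ D.σ ^ m := by
  intro h
  have h1 : (Set.univ : Set (L ≃ₐ[K] L)) ⊆ (fun i => D.σ ^ i) '' (Finset.range q : Set ℕ) := by
    intro g _
    have h2 : ∀ n, D.σ ^ n ∈ (fun i => D.σ ^ i) '' (Finset.range q : Set ℕ) := by
      intro n
      refine ⟨n % q, ?_, ?_⟩
      · rw [Finset.mem_coe, Finset.mem_range]
        exact Nat.mod_lt _ D.pq.pos
      · change D.σ ^ (n % q) = D.σ ^ n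
        conv_rhs => rw [← pow_mod_orderOf, D.order_σ]
    obtain ⟨i, _, hg | hg⟩ := D.gen g
    · rw [hg]; exact h2 i
    · rw [hg, h, ← pow_add]; exact h2 _
  have h3 := Set.ncard_le_ncard h1 ((Finset.range q).finite_toSet.image _)
  have h4 := Set.ncard_image_le (f := fun i => D.σ ^ i) (Finset.range q).finite_toSet
  rw [Set.ncard_coe_finset, Finset.card_range] at h4
  rw [Set.ncard_univ, D.card] at h3
  have := D.pq.pos
  omega

/-! ### orders of the elements of the torus -/

theorem ord_el_add (u : HeightOneSpectrum (𝓞 L)) (x y : Additive D.T) :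
    ord u (D.el (x + y)) = ord u (D.el x) + ord u (D.el y) := by
  rw [el_add, ord_mul u (D.el_ne x) (D.el_ne y)]

/-- the order as a homomorphism -/
noncomputable def oh (u : HeightOneSpectrum (𝓞 L)) : Additive D.T →+ ℤ where
  toFun x := ord u (D.el x)
  map_zero' := by rw [el_zero, ord_one]
  map_add' := D.ord_el_add u

theorem oh_apply (u : HeightOneSpectrum (𝓞 L)) (x : Additive D.T) : D.oh u x = ord u (D.el x) := rfl

theorem el_root_pow (i : ℕ) (x : Additive D.T) :
    D.el ((AdjoinRoot.root (cyclotomic q ℤ) : Lam q) ^ i • x) = (D.σ ^ i) (D.el x) := by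
  induction i generalizing x with
  | zero => rw [pow_zero, one_smul]; rfl
  | succ i ih =>
    rw [pow_succ, mul_smul, ih, el_root]
    rfl

theorem oh_smul (u : HeightOneSpectrum (𝓞 L)) (k : Lam q) (x : Additive D.T) :
    D.oh u (k • x) = ∑ i ∈ Finset.range (q - 1), cf k i * ord u ((D.σ ^ i) (D.el x)) := by
  conv_lhs => rw [eq_sum D.pq k, Finset.sum_smul, map_sum]
  refine Finset.sum_congr rfl fun i _ => ?_
  rw [mul_smul, Int.cast_smul_eq_zsmul, map_zsmul, oh_apply, el_root_pow, smul_eq_mul]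

/-- `ord` of an element of the torus at the `τ`-conjugate -/
theorem oh_τ (u : HeightOneSpectrum (𝓞 L)) (x : Additive D.T) : D.oh (cj D.τ u) x = -D.oh u x := by
  have h1 := (D.mem_T.1 (D.el_mem x)).1
  have h2 : ord u (D.el x) + ord u (D.τ (D.el x)) = 0 := by
    rw [← ord_mul u (D.el_ne x)]
    · rw [← ord_one u]
      exact congrArg (ord u) h1
    · exact (_root_.map_ne_zero D.τ).2 (D.el_ne x)
  have h3 : D.τ⁻¹ = D.τ := inv_eq_of_mul_eq_one_left D.τ2
  rw [ord_app, h3] at h2
  rw [oh_apply, oh_apply]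
  linarith

/-- the orders at the `σ`-conjugates add up to zero -/
theorem sum_oh (u : HeightOneSpectrum (𝓞 L)) (x : Additive D.T) :
    ∑ j ∈ Finset.range q, D.oh (cj (D.σ ^ j) u) x = 0 := by
  have h1 : ∏ i ∈ Finset.range q, (D.σ ^ i) (D.el x) = 1 := (D.mem_T.1 (D.el_mem x)).2
  have h2 := congrArg (ord u) h1
  rw [ord_one, ord_prod u _ _ fun i => (_root_.map_ne_zero _).2 (D.el_ne x)] at h2
  -- reindex by `j ↦ q - j`
  have h3 : ∀ j ∈ Finset.range q, D.oh (cj (D.σ ^ j) u) x = ord u ((D.σ ^ ((q - j) % q)) (D.el x)) := by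
    intro j hj
    rw [oh_apply, ord_app]
    congr 2
    have h4 : (D.σ ^ ((q - j) % q)) = (D.σ ^ j)⁻¹ := by
      rw [eq_inv_iff_mul_eq_one]
      have h5 : D.σ ^ ((q - j) % q) = D.σ ^ (q - j) := by
        conv_rhs => rw [← pow_mod_orderOf, D.order_σ]
      rw [h5, ← pow_add, Nat.sub_add_cancel (Finset.mem_range.1 hj).le, D.σq]
    rw [h4, inv_inv]
  rw [Finset.sum_congr rfl h3, ← h2]
  refine Finset.sum_nbij' (fun j => (q - j) % q) (fun j => (q - j) % q) ?_ ?_ ?_ ?_ ?_
  · intro j _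
    exact Finset.mem_range.2 (Nat.mod_lt _ D.pq.pos)
  · intro j _
    exact Finset.mem_range.2 (Nat.mod_lt _ D.pq.pos)
  · intro j hj
    have hj' := Finset.mem_range.1 hj
    rcases Nat.eq_zero_or_pos j with h0 | h0
    · subst h0; simp
    · rw [Nat.mod_eq_of_lt (by omega : q - j < q), Nat.mod_eq_of_lt (by omega)]
      omega
  · intro j hj
    have hj' := Finset.mem_range.1 hj
    rcases Nat.eq_zero_or_pos j with h0 | h0
    · subst h0; simp
    · rw [Nat.mod_eq_of_lt (by omega : q - j < q), Nat.mod_eq_of_lt (by omega)]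
      omega
  · intro j _
    rfl

/-! ### the generator -/

theorem prod_σ (z : L) : ∏ i ∈ Finset.range q, (D.σ ^ i) (D.σ z) = ∏ i ∈ Finset.range q, (D.σ ^ i) z := by
  have h1 : ∀ i : ℕ, (D.σ ^ i) (D.σ z) = (D.σ ^ (i + 1)) z := fun i => by
    rw [pow_succ]; rfl
  simp only [h1]
  have h2 := Finset.prod_range_succ' (fun i => (D.σ ^ i) z) q
  have h3 := Finset.prod_range_succ (fun i => (D.σ ^ i) z) q
  rw [D.σq] at h3
  rw [h3, pow_zero] at h2
  by_cases hz : z = 0
  · subst hz
    simp [D.pq.pos.ne']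
  · have h4 : (1 : L ≃ₐ[K] L) z ≠ 0 := hz
    exact (mul_right_cancel₀ h4 h2).symm

/-- `π ^ ((1 - τ) (1 - σ))` -/
theorem gen_mem {z : L} (hz : z ≠ 0) :
    (z * D.τ (D.σ z) / (D.σ z * D.τ z)) * D.τ (z * D.τ (D.σ z) / (D.σ z * D.τ z)) = 1 ∧
    ∏ i ∈ Finset.range q, (D.σ ^ i) (z * D.τ (D.σ z) / (D.σ z * D.τ z)) = 1 := by
  have hττ : ∀ y : L, D.τ (D.τ y) = y := fun y => DFunLike.congr_fun D.τ2 y
  have h1 : D.σ z ≠ 0 := (_root_.map_ne_zero _).2 hz
  have h2 : D.τ z ≠ 0 := (_root_.map_ne_zero _).2 hz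
  have h3 : D.τ (D.σ z) ≠ 0 := (_root_.map_ne_zero _).2 h1
  constructor
  · rw [map_div₀, map_mul, map_mul, hττ, hττ]
    field_simp
  · have h4 : ∀ i ∈ Finset.range q, (D.σ ^ i) (z * D.τ (D.σ z) / (D.σ z * D.τ z)) =
        ((D.σ ^ i) z * (D.σ ^ i) (D.σ (D.τ z))) / ((D.σ ^ i) (D.σ z) * (D.σ ^ i) (D.τ z)) := by
      intro i _
      rw [map_div₀, map_mul, map_mul, D.app_comm D.τ D.σ]
    rw [Finset.prod_congr rfl h4, Finset.prod_div_distrib, Finset.prod_mul_distrib,
      Finset.prod_mul_distrib, D.prod_σ, D.prod_σ]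
    refine div_self (mul_ne_zero ?_ ?_)
    · exact Finset.prod_ne_zero_iff.2 fun i _ => (_root_.map_ne_zero _).2 hz
    · exact Finset.prod_ne_zero_iff.2 fun i _ => (_root_.map_ne_zero _).2 h2

/-- the element of the torus -/
noncomputable def gen1 {z : L} (hz : z ≠ 0) : Additive D.T :=
  Additive.ofMul ⟨Units.mk0 (z * D.τ (D.σ z) / (D.σ z * D.τ z)) (by
    intro h
    have := (D.gen_mem hz).1
    rw [h, zero_mul] at this
    exact zero_ne_one this), D.gen_mem hz⟩

theorem el_gen1 {z : L} (hz : z ≠ 0) : D.el (D.gen1 hz) = z * D.τ (D.σ z) / (D.σ z * D.τ z) := rfl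

theorem oh_gen1 {z : L} (hz : z ≠ 0) (u : HeightOneSpectrum (𝓞 L)) :
    D.oh u (D.gen1 hz) = ord u z + ord u (D.τ (D.σ z)) - ord u (D.σ z) - ord u (D.τ z) := by
  have h1 : D.σ z ≠ 0 := (_root_.map_ne_zero _).2 hz
  have h2 : D.τ z ≠ 0 := (_root_.map_ne_zero _).2 hz
  have h3 : D.τ (D.σ z) ≠ 0 := (_root_.map_ne_zero _).2 h1
  rw [oh_apply, el_gen1, div_eq_mul_inv, ord_mul u (mul_ne_zero hz h3) (inv_ne_zero (mul_ne_zero h1 h2)),
    ord_inv u (mul_ne_zero h1 h2), ord_mul u hz h3, ord_mul u h1 h2]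
  ring

/-- **The structure theorem**: `v` is completely split in `L`, `w` over `v`, `h` the class number, `μ` the number of
roots of unity of `L`. -/
theorem str [IsGalois K L] [DecidableEq (L ≃ₐ[K] L)] {v : HeightOneSpectrum (𝓞 K)} (hv : v ∈ Spl K L)
    {w : HeightOneSpectrum (𝓞 L)} (hw : w ∈ abv L v) : ∃ P : Additive D.T,
    (∀ u, u ∉ abv L v → D.oh u P = 0) ∧
    (∀ j < q, D.oh (cj (D.σ ^ j) w) P =
      classNumber L * ((if j = 0 then 1 else 0) - if j = 1 then 1 else 0)) ∧
    ∀ y : Additive D.T, (∀ u, u ∉ abv L v → D.oh u y = 0) → ∃ k : Lam q,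
      (Units.torsionOrder L * classNumber L) • y = Units.torsionOrder L • k • P ∧
      ∀ i < q - 1, cf k i = ∑ j ∈ Finset.range (i + 1), D.oh (cj (D.σ ^ j) w) y := by
  obtain ⟨π, hπ0, hπw, hπ'⟩ := exists_gen w
  have hz : (π : L) ≠ 0 := by
    intro h
    exact hπ0 (RingOfIntegers.ext h)
  have hq2 : 2 ≤ q := D.pq.two_le
  -- orders of the conjugates of `π`
  have hδ : ∀ g : L ≃ₐ[K] L, ord (cj g w) (π : L) = if g = 1 then (classNumber L : ℤ) else 0 := by
    intro g
    split_ifs with h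
    · rw [h, cj_one, hπw]
    · refine hπ' _ fun h' => h (cj_free hv hw ?_)
      rw [h', cj_one]
  have hout : ∀ (g : L ≃ₐ[K] L) u, u ∉ abv L v → ord u (g π) = 0 := by
    intro g u hu
    rw [ord_app]
    refine hπ' _ fun h => hu ?_
    rw [← cj_cj_inv g u, h]
    exact cj_mem_abv g hw
  have hin : ∀ g g' : L ≃ₐ[K] L, ord (cj g w) (g' π) =
      if g = g' then (classNumber L : ℤ) else 0 := by
    intro g g'
    rw [ord_app, ← cj_mul, hδ]
    congr 1
    rw [inv_mul_eq_one]
    exact propext eq_comm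
  have hts : D.τ (D.σ (π : L)) = (D.σ * D.τ) (π : L) := by
    rw [D.comm]; rfl
  have hP1 : ∀ j < q, D.oh (cj (D.σ ^ j) w) (D.gen1 hz) =
      classNumber L * ((if j = 0 then 1 else 0) - if j = 1 then 1 else 0) := by
    intro j hj
    have e1 : ord (cj (D.σ ^ j) w) (π : L) = if j = 0 then (classNumber L : ℤ) else 0 := by
      rw [hδ]
      congr 1
      apply propext
      constructor
      · intro h
        exact D.σ_pow_inj hj (by omega) (by rw [h, pow_zero])
      · rintro rfl
        rw [pow_zero]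
    have e2 : ord (cj (D.σ ^ j) w) (D.σ (π : L)) = if j = 1 then (classNumber L : ℤ) else 0 := by
      rw [hin]
      congr 1
      apply propext
      constructor
      · intro h
        exact D.σ_pow_inj hj (by omega) (by rw [h, pow_one])
      · rintro rfl
        rw [pow_one]
    have e3 : ord (cj (D.σ ^ j) w) (D.τ (π : L)) = 0 := by
      rw [hin, if_neg fun h => D.τ_ne j h.symm]
    have e4 : ord (cj (D.σ ^ j) w) (D.τ (D.σ (π : L))) = 0 := by
      rw [hts, hin, if_neg]
      intro h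
      refine D.τ_ne (j + (q - 1)) ?_
      have h5 : D.σ ^ (q - 1) * D.σ = 1 := by
        rw [← pow_succ, Nat.sub_add_cancel (by omega), D.σq]
      calc D.τ = (D.σ ^ (q - 1) * D.σ) * D.τ := by rw [h5, one_mul]
        _ = D.σ ^ (q - 1) * D.σ ^ j := by rw [mul_assoc, h]
        _ = D.σ ^ (j + (q - 1)) := by rw [← pow_add, add_comm]
    rw [oh_gen1, e1, e2, e3, e4]
    split_ifs <;> ring
  have hP0 : ∀ u, u ∉ abv L v → D.oh u (D.gen1 hz) = 0 := by
    intro u hu
    rw [oh_gen1, hts, hout _ _ hu, hout _ _ hu, hout _ _ hu]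
    have := hout 1 u hu
    rw [AlgEquiv.one_apply] at this
    rw [this]
    ring
  refine ⟨D.gen1 hz, hP0, hP1, fun y hy => ?_⟩
  obtain ⟨s, hs⟩ : ∃ s : ℕ → ℤ, ∀ i, s i = ∑ j ∈ Finset.range (i + 1), D.oh (cj (D.σ ^ j) w) y :=
    ⟨_, fun _ => rfl⟩
  obtain ⟨k, hk⟩ : ∃ k : Lam q, k = ∑ i ∈ Finset.range (q - 1),
      (s i : Lam q) * (AdjoinRoot.root (cyclotomic q ℤ)) ^ i := ⟨_, rfl⟩
  have hcf : ∀ i, cf k i = if i < q - 1 then s i else 0 := by
    intro i
    rw [hk]
    exact cf_sum D.pq s i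
  refine ⟨k, ?_, fun i hi => by rw [hcf, if_pos hi, hs]⟩
  -- the orders agree
  have hsq : s (q - 1) = 0 := by
    rw [hs, Nat.sub_add_cancel (by omega)]
    exact D.sum_oh w y
  have hord : ∀ j < q, D.oh (cj (D.σ ^ j) w) (k • D.gen1 hz) =
      classNumber L * D.oh (cj (D.σ ^ j) w) y := by
    intro j hj
    rw [oh_smul]
    have h1 : ∀ i ∈ Finset.range (q - 1), cf k i * ord (cj (D.σ ^ j) w) ((D.σ ^ i) (D.el (D.gen1 hz))) =
        classNumber L * ((if i = j then s i else 0) - if i + 1 = j then s i else 0) := by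
      intro i hi
      have hi' := Finset.mem_range.1 hi
      rw [hcf, if_pos hi', ord_app, ← cj_mul]
      rcases Nat.lt_or_ge j i with hji | hji
      · -- `σ ^ (q + j - i)`
        have h2 : (D.σ ^ i)⁻¹ * D.σ ^ j = D.σ ^ (q + j - i) := by
          rw [inv_mul_eq_iff_eq_mul, ← pow_add]
          have : i + (q + j - i) = q + j := by omega
          rw [this, pow_add, D.σq, one_mul]
        rw [h2]
        have h3 := hP1 (q + j - i) (by omega)
        rw [oh_apply] at h3
        rw [h3, if_neg (by omega), if_neg (by omega), if_neg (by omega), if_neg (by omega)]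
        ring
      · have h2 : (D.σ ^ i)⁻¹ * D.σ ^ j = D.σ ^ (j - i) := by
          rw [inv_mul_eq_iff_eq_mul, ← pow_add]
          have : i + (j - i) = j := by omega
          rw [this]
        rw [h2]
        have h3 := hP1 (j - i) (by omega)
        rw [oh_apply] at h3
        rw [h3]
        have e1 : (j - i = 0) ↔ (i = j) := by omega
        have e2 : (j - i = 1) ↔ (i + 1 = j) := by omega
        simp only [e1, e2]
        split_ifs <;> ring
    rw [Finset.sum_congr rfl h1, ← Finset.mul_sum, Finset.sum_sub_distrib]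
    congr 1
    have h4 : ∑ i ∈ Finset.range (q - 1), (if i = j then s i else 0) = s j := by
      by_cases hjq : j < q - 1
      · rw [Finset.sum_eq_single j]
        · rw [if_pos rfl]
        · intro b _ hb
          rw [if_neg hb]
        · intro h
          exact absurd (Finset.mem_range.2 hjq) h
      · have : j = q - 1 := by omega
        rw [this, hsq]
        refine Finset.sum_eq_zero fun b hb => ?_
        rw [if_neg]
        have := Finset.mem_range.1 hb
        omega
    have h5 : ∑ i ∈ Finset.range (q - 1), (if i + 1 = j then s i else 0) =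
        if j = 0 then 0 else s (j - 1) := by
      split_ifs with hj0
      · refine Finset.sum_eq_zero fun b _ => ?_
        rw [if_neg]
        omega
      · rw [Finset.sum_eq_single (j - 1)]
        · rw [if_pos (by omega)]
        · intro b _ hb
          rw [if_neg]
          omega
        · intro h
          exact absurd (Finset.mem_range.2 (by omega)) h
    rw [h4, h5]
    split_ifs with hj0
    · subst hj0
      rw [hs, sub_zero]
      simp
    · rw [hs, hs]
      have : j - 1 + 1 = j := by omega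
      rw [this, Finset.sum_range_succ]
      ring
  -- the difference is a root of unity
  obtain ⟨z, hz'⟩ : ∃ z : Additive D.T, z = classNumber L • y - k • D.gen1 hz := ⟨_, rfl⟩
  have hz0 : ∀ u, D.oh u z = 0 := by
    have h1 : ∀ j < q, D.oh (cj (D.σ ^ j) w) z = 0 := by
      intro j hj
      rw [hz', map_sub, map_nsmul, hord j hj, nsmul_eq_mul, sub_self]
    intro u
    by_cases hu : u ∈ abv L v
    · obtain ⟨g, rfl⟩ := cj_trans hw hu
      obtain ⟨i, hi, hg | hg⟩ := D.gen g
      · rw [hg]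
        exact h1 i hi
      · rw [hg, D.comm_all (D.σ ^ i) D.τ, cj_mul, oh_τ, h1 i hi, neg_zero]
    · rw [hz', map_sub, map_nsmul, hy u hu, smul_zero, oh_smul]
      rw [Finset.sum_eq_zero, sub_zero]
      intro i _
      rw [ord_app]
      have h2 := hP0 (cj (D.σ ^ i)⁻¹ u) fun h => hu (by
        rw [← cj_cj_inv (D.σ ^ i) u]
        exact cj_mem_abv _ h)
      rw [oh_apply] at h2
      rw [h2, mul_zero]
  have hkro := D.kro (x := ((Additive.toMul z : D.T) : Lˣ)) (D.el_mem z) fun u =>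
    (ord_eq_zero_iff u (D.el_ne z)).1 (hz0 u)
  have h0 : Units.torsionOrder L • z = 0 := by
    apply D.el_inj
    rw [el_nsmul, el_zero]
    have h1 := congrArg (fun a : Lˣ => (a : L)) hkro
    rw [Units.val_pow_eq_pow_val, Units.val_one] at h1
    exact h1
  rw [hz', nsmul_sub, sub_eq_zero, ← mul_nsmul'] at h0
  exact h0

end Tor

end Pool.Agent.ZT
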