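import Pool.Agent.Lib.ZT.Fil

/-!
# Residues: the order modulo a prime, integers near an element of `K`
-/

set_option autoImplicit false

namespace Pool.Agent.ZT

open NumberField IsDedekindDomain Polynomial Pool.Agent.ZD WithZero

section gen

variable {K : Type} [Field K] [NumberField K]

theorem card_quot (v : HeightOneSpectrum (𝓞 K)) : Nat.card (𝓞 K ⧸ v.asIdeal) = nm v := by
  unfold nm
  rw [Ideal.absNorm_apply, Submodule.cardQuot_apply]

theorem pow_nm_int (v : HeightOneSpectrum (𝓞 K)) {a : 𝓞 K} (ha : a ∉ v.asIdeal) :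
    a ^ (nm v - 1) - 1 ∈ v.asIdeal := by
  have : v.asIdeal.IsMaximal := v.isMaximal
  let _ : Field (𝓞 K ⧸ v.asIdeal) := Ideal.Quotient.field _
  have hfin : Finite (𝓞 K ⧸ v.asIdeal) := by
    apply Nat.finite_of_card_ne_zero
    rw [card_quot]
    exact (nm_pos v).ne'
  let _ := Fintype.ofFinite (𝓞 K ⧸ v.asIdeal)
  rw [← Ideal.Quotient.eq_zero_iff_mem, map_sub, map_pow, map_one, sub_eq_zero, ← card_quot,
    Nat.card_eq_fintype_card]
  refine FiniteField.pow_card_sub_one_eq_one _ ?_
  rw [Ne, Ideal.Quotient.eq_zero_iff_mem]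
  exact ha

/-- Fermat's little theorem for units at `v` -/
theorem val_pow_nm (v : HeightOneSpectrum (𝓞 K)) {y : K} (hy : v.valuation K y = 1) :
    v.valuation K (y ^ (nm v - 1) - 1) < 1 := by
  obtain ⟨a, d, had⟩ := v.exists_primeCompl_mul_eq_of_integer y hy.le
  have hd1 : v.valuation K (algebraMap (𝓞 K) K d) = 1 := by
    rw [HeightOneSpectrum.valuation_eq_one_iff_notMem]
    exact d.2
  have ha1 : v.valuation K (algebraMap (𝓞 K) K a) = 1 := by
    have h := congrArg (v.valuation K) had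
    rw [map_mul, hy, one_mul] at h
    rw [← hd1]
    exact h.symm
  have ha : a ∉ v.asIdeal := (HeightOneSpectrum.valuation_eq_one_iff_notMem _).1 ha1
  have h1 := pow_nm_int v ha
  have h2 := pow_nm_int v (a := (d : 𝓞 K)) d.2
  have h3 : v.valuation K ((algebraMap (𝓞 K) K a) ^ (nm v - 1) - 1) < 1 := by
    have := (HeightOneSpectrum.valuation_lt_one_iff_mem (K := K) v _).2 h1
    change v.valuation K (algebraMap (𝓞 K) K (a ^ (nm v - 1) - 1)) < 1 at this
    rwa [map_sub, map_pow, map_one] at this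
  have h4 : v.valuation K ((algebraMap (𝓞 K) K d) ^ (nm v - 1) - 1) < 1 := by
    have := (HeightOneSpectrum.valuation_lt_one_iff_mem (K := K) v _).2 h2
    change v.valuation K (algebraMap (𝓞 K) K ((d : 𝓞 K) ^ (nm v - 1) - 1)) < 1 at this
    rwa [map_sub, map_pow, map_one] at this
  have hd0 : algebraMap (𝓞 K) K (d : 𝓞 K) ≠ 0 := by
    intro h
    rw [h, map_zero] at hd1
    exact zero_ne_one hd1
  have hy2 : y = algebraMap (𝓞 K) K a / algebraMap (𝓞 K) K d := by
    rw [eq_div_iff hd0]
    exact had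
  have h5 : y ^ (nm v - 1) - 1 = (((algebraMap (𝓞 K) K a) ^ (nm v - 1) - 1) -
      ((algebraMap (𝓞 K) K d) ^ (nm v - 1) - 1)) / (algebraMap (𝓞 K) K d) ^ (nm v - 1) := by
    rw [hy2, div_pow]
    field_simp
    ring
  rw [h5, map_div₀, map_pow, hd1, one_pow, div_one]
  exact (Valuation.map_sub _ _ _).trans_lt (max_lt h3 h4)

/-- **Integers near an element of `K`** for `v` of degree one and unramified over `ℚ` -/
theorem appr {p : ℕ} (v : HeightOneSpectrum (𝓞 K)) (hn : nm v = p) (hp : p.Prime)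
    (hv : v.valuation K (p : K) = exp (-1)) {t : K} (ht : v.valuation K t ≤ 1) (N : ℕ) :
    ∃ n : ℤ, v.valuation K (t - n) ≤ exp (-(N : ℤ)) := by
  -- first step
  have key : ∀ s : K, v.valuation K s ≤ 1 → ∃ n : ℤ, v.valuation K (s - n) < 1 := by
    intro s hs
    obtain ⟨a, ha⟩ := HeightOneSpectrum.exists_valuation_sub_lt_of_integer (R := 𝓞 K) (K := K) v hs 1
    have hmax : v.asIdeal.IsMaximal := v.isMaximal
    -- the residue field is `ℤ / p`
    have hcard : Nat.card (𝓞 K ⧸ v.asIdeal) = p := by rw [card_quot, hn]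
    have hsurj : Function.Surjective (Int.castRingHom (𝓞 K ⧸ v.asIdeal)) := by
      have : Finite (𝓞 K ⧸ v.asIdeal) := by
        apply Nat.finite_of_card_ne_zero
        rw [hcard]
        exact hp.ne_zero
      have hdom : IsDomain (𝓞 K ⧸ v.asIdeal) := Ideal.Quotient.isDomain _
      have hr : (Int.castRingHom (𝓞 K ⧸ v.asIdeal)).range.toAddSubgroup = ⊤ := by
        have hpf : Fact (Nat.card (𝓞 K ⧸ v.asIdeal)).Prime := ⟨by rw [hcard]; exact hp⟩
        rcases ((Int.castRingHom (𝓞 K ⧸ v.asIdeal)).range.toAddSubgroup).eq_bot_or_eq_top_of_prime_card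
          with h | h
        · exfalso
          have h1 : (1 : 𝓞 K ⧸ v.asIdeal) ∈ (Int.castRingHom (𝓞 K ⧸ v.asIdeal)).range.toAddSubgroup :=
            (Int.castRingHom (𝓞 K ⧸ v.asIdeal)).range.one_mem
          rw [h, AddSubgroup.mem_bot] at h1
          exact one_ne_zero h1
        · exact h
      intro z
      have hz : z ∈ (Int.castRingHom (𝓞 K ⧸ v.asIdeal)).range.toAddSubgroup := by
        rw [hr]
        exact AddSubgroup.mem_top z
      exact hz
    obtain ⟨n, hn⟩ := hsurj (Ideal.Quotient.mk _ a)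
    refine ⟨n, ?_⟩
    have h2 : a - (n : 𝓞 K) ∈ v.asIdeal := by
      rw [← Ideal.Quotient.eq_zero_iff_mem, map_sub, ← hn]
      simp
    have h3 := (HeightOneSpectrum.valuation_lt_one_iff_mem (K := K) v _).2 h2
    have h4 : s - (n : K) = -(algebraMap (𝓞 K) K a - s) + algebraMap (𝓞 K) K (a - (n : 𝓞 K)) := by
      rw [map_sub, map_intCast]
      ring
    rw [h4]
    refine (Valuation.map_add _ _ _).trans_lt (max_lt ?_ h3)
    rw [Valuation.map_neg]
    exact ha
  induction N generalizing t with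
  | zero =>
    refine ⟨0, ?_⟩
    simpa using ht
  | succ N ih =>
    obtain ⟨n, hn1⟩ := key t ht
    have hp0 : (p : K) ≠ 0 := by exact_mod_cast hp.ne_zero
    have h1 : v.valuation K ((t - n) / p) ≤ 1 := by
      rw [map_div₀, hv, div_le_iff₀ exp_pos, one_mul]
      exact (lt_one_iff_le_exp _).1 hn1
    obtain ⟨m, hm⟩ := ih h1
    refine ⟨n + p * m, ?_⟩
    have h2 : t - ((n + p * m : ℤ) : K) = p * ((t - n) / p - m) := by
      push_cast
      field_simp
      ring
    rw [h2, map_mul, hv]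
    calc exp (-1) * v.valuation K ((t - n) / p - m) ≤ exp (-1) * exp (-(N : ℤ)) := by gcongr
      _ = exp (-((N + 1 : ℕ) : ℤ)) := by
        rw [← exp_add]
        congr 1
        push_cast
        ring

end gen

section cjn

variable {K L : Type} [Field K] [NumberField K] [Field L] [NumberField L] [Algebra K L]

theorem nm_cj (g : L ≃ₐ[K] L) (w : HeightOneSpectrum (𝓞 L)) : nm (cj g w) = nm w := by
  rw [← card_quot, ← card_quot]
  exact (Nat.card_congr (Ideal.quotientEquiv w.asIdeal (cj g w).asIdeal (gO g) rfl).toEquiv).symm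

end cjn

namespace Tor

variable {K L : Type} [Field K] [NumberField K] [Field L] [NumberField L] [Algebra K L] {q : ℕ}
  (D : Tor K L q)

/-- units at the conjugates of `Q` have finite order modulo `Bq Q` -/
theorem nm_smul_mem {Q : HeightOneSpectrum (𝓞 L)} {x : Additive D.T}
    (hx : ∀ g : L ≃ₐ[K] L, (cj g Q).valuation L (D.el x) = 1) : (nm Q - 1) • x ∈ D.Bq Q := by
  rw [mem_Bq]
  intro g
  rw [el_nsmul, ← nm_cj g Q]
  exact val_pow_nm _ (hx g)

/-- **The order modulo `Q`** -/
theorem smul_notMem {Q : HeightOneSpectrum (𝓞 L)} {p : ℕ} (hp : p.Prime)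
    (hQ : Q.valuation L (p : L) = 1) {x : Additive D.T} (hx : Q.valuation L (D.el x) = 1)
    (hs : Q.valuation L (∑ i ∈ Finset.range p, D.el x ^ i) < 1) (m : ℕ) (hm : m.Coprime p) :
    m • x ∉ D.Bq Q := by
  intro h
  have h1 := D.mem_Bq.1 h 1
  rw [cj_one, el_nsmul] at h1
  set y := D.el x with hy
  -- powers congruent to one
  have hmul : ∀ a b : ℕ, Q.valuation L (y ^ a - 1) < 1 → Q.valuation L (y ^ (a * b) - 1) < 1 := by
    intro a b hab
    have h2 : y ^ (a * b) - 1 = (y ^ a - 1) * ∑ j ∈ Finset.range b, (y ^ a) ^ j := by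
      rw [mul_comm (y ^ a - 1), geom_sum_mul, pow_mul]
    rw [h2, map_mul]
    refine (mul_le_of_le_one_right zero_le ?_).trans_lt hab
    refine val_sum_le Q _ _ fun i _ => ?_
    rw [map_pow, map_pow, hx, one_pow, one_pow]
  have h2 : Q.valuation L (y ^ p - 1) < 1 := by
    have h3 : y ^ p - 1 = (∑ i ∈ Finset.range p, y ^ i) * (y - 1) := (geom_sum_mul y p).symm
    rw [h3, map_mul]
    refine (mul_le_of_le_one_right zero_le ?_).trans_lt hs
    refine (Valuation.map_sub _ _ _).trans ?_
    rw [hx, map_one, max_self]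
  have hm0 : m ≠ 0 := by
    rintro rfl
    rw [Nat.coprime_zero_left] at hm
    exact hp.ne_one hm
  obtain ⟨a, _, ha⟩ := Nat.exists_mul_mod_eq_one_of_coprime hm hp.one_lt
  have ha' := Nat.div_add_mod (m * a) p
  rw [ha] at ha'
  have h3 := hmul m a h1
  have h4 := hmul p (m * a / p) h2
  have h5 : Q.valuation L (y - 1) < 1 := by
    have h6 : y - 1 = (y ^ (m * a) - 1) - y * (y ^ (p * (m * a / p)) - 1) := by
      have h7 : y ^ (m * a) = y ^ (p * (m * a / p)) * y := by
        rw [← pow_succ]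
        exact congrArg (fun n => y ^ n) ha'.symm
      linear_combination (-1 : L) * h7
    rw [h6]
    refine (Valuation.map_sub _ _ _).trans_lt (max_lt h3 ?_)
    rw [map_mul, hx, one_mul]
    exact h4
  have h7 : (p : L) = (∑ i ∈ Finset.range p, y ^ i) - ∑ i ∈ Finset.range p, (y ^ i - 1) := by
    rw [Finset.sum_sub_distrib]
    simp
  have h8 : Q.valuation L (∑ i ∈ Finset.range p, (y ^ i - 1)) < 1 := by
    rw [lt_one_iff_le_exp]
    refine val_sum_le Q _ _ fun i _ => ?_
    rw [← lt_one_iff_le_exp]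
    have := hmul 1 i (by rwa [pow_one])
    rwa [one_mul] at this
  have h9 : Q.valuation L (p : L) < 1 := by
    rw [h7]
    exact (Valuation.map_sub _ _ _).trans_lt (max_lt hs h8)
  exact h9.ne hQ

end Tor

end Pool.Agent.ZT
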