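import Pool.Agent.Lib.ZT.Uni

/-!
# (c5) in the form used in the completeness proof
-/

set_option autoImplicit false

namespace Pool.Agent.ZT

open NumberField IsDedekindDomain Polynomial Pool.Agent.ZD WithZero

/-- in a cyclic group of order `p n` the elements with `a ^ n = 1` are `p`-th powers -/
theorem exists_pow_of_cyclic {G : Type} [Group G] [IsCyclic G] {p n : ℕ} (hG : Nat.card G = p * n)
    (hn : n ≠ 0) (hp : p ≠ 0) {a : G} (ha : a ^ n = 1) : ∃ b : G, b ^ p = a := by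
  have hfin : Finite G := Nat.finite_of_card_ne_zero (by rw [hG]; exact mul_ne_zero hp hn)
  obtain ⟨g, hg⟩ := IsCyclic.exists_generator (α := G)
  have h1 : orderOf g = p * n := by
    rw [orderOf_eq_card_of_forall_mem_zpowers hg, hG]
  have h2 := hg a
  rw [← mem_powers_iff_mem_zpowers] at h2
  obtain ⟨i, hi⟩ := h2
  have hi' : g ^ i = a := hi
  rw [← hi', ← pow_mul] at ha
  have h3 := orderOf_dvd_of_pow_eq_one ha
  rw [h1] at h3
  obtain ⟨j, rfl⟩ := Nat.dvd_of_mul_dvd_mul_right (Nat.pos_of_ne_zero hn) h3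
  refine ⟨g ^ j, ?_⟩
  rw [← hi', ← pow_mul, mul_comm]

section root

variable {L : Type} [Field L] [NumberField L]

theorem exists_root {Q : HeightOneSpectrum (𝓞 L)} {p n : ℕ} (hn : nm Q - 1 = p * n) {b : L}
    (hb : Q.valuation L b = 1) (h : Q.valuation L (b ^ n - 1) < 1) :
    ∃ z : 𝓞 L, Q.valuation L (b - (z : L) ^ p) < 1 := by
  have hmax : Q.asIdeal.IsMaximal := Q.isMaximal
  let _ : Field (𝓞 L ⧸ Q.asIdeal) := Ideal.Quotient.field _
  have hc := card_quot Q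
  have hfin : Finite (𝓞 L ⧸ Q.asIdeal) := by
    apply Nat.finite_of_card_ne_zero
    rw [hc]
    have h2 := two_le_nm Q
    omega
  have h0 : p * n ≠ 0 := by
    rw [← hn]
    have := two_le_nm Q
    omega
  have hp0 : p ≠ 0 := fun h1 => h0 (by rw [h1, zero_mul])
  have hn0 : n ≠ 0 := fun h1 => h0 (by rw [h1, mul_zero])
  obtain ⟨c, hc'⟩ := HeightOneSpectrum.exists_valuation_sub_lt_of_integer (R := 𝓞 L) (K := L) Q hb.le 1
  have hcb : Q.valuation L (b - algebraMap (𝓞 L) L c) < 1 := by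
    rw [← Valuation.map_neg, neg_sub]
    simpa using hc'
  obtain ⟨t, ht⟩ : ∃ t : L, t = algebraMap (𝓞 L) L c := ⟨_, rfl⟩
  rw [← ht] at hcb
  have ht1 : Q.valuation L t = 1 := by
    have h4 : t = b - (b - t) := by ring
    rw [h4, Valuation.map_sub_eq_of_lt_left _ (by rw [hb]; exact hcb)]
    exact hb
  -- the residue of `b`
  have hpow : ∀ (u v : L) (m : ℕ), Q.valuation L u ≤ 1 → Q.valuation L v ≤ 1 → Q.valuation L (u - v) < 1 →
      Q.valuation L (u ^ m - v ^ m) < 1 := by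
    intro u v m hu hv huv
    rw [← geom_sum₂_mul u v m, map_mul]
    refine (mul_le_of_le_one_left zero_le ?_).trans_lt huv
    refine val_sum_le Q _ _ fun i _ => ?_
    rw [map_mul, map_pow, map_pow]
    exact mul_le_one' (pow_le_one₀ zero_le hu) (pow_le_one₀ zero_le hv)
  have h1 : Q.valuation L (t ^ n - 1) < 1 := by
    have h2 : t ^ n - 1 = (b ^ n - 1) - (b ^ n - t ^ n) := by ring
    rw [h2]
    exact Valuation.map_sub_lt _ h (hpow b t n hb.le ht1.le hcb)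
  have hcn : (Ideal.Quotient.mk Q.asIdeal c) ^ n = 1 := by
    rw [← map_pow, ← map_one (Ideal.Quotient.mk Q.asIdeal), Ideal.Quotient.mk_eq_mk_iff_sub_mem,
      ← Q.valuation_lt_one_iff_mem (K := L)]
    change Q.valuation L (algebraMap (𝓞 L) L (c ^ n - 1)) < 1
    rw [map_sub, map_pow, map_one, ← ht]
    exact h1
  have hc0 : Ideal.Quotient.mk Q.asIdeal c ≠ 0 := by
    intro h2
    rw [h2, zero_pow hn0] at hcn
    exact zero_ne_one hcn
  have hcard : Nat.card (𝓞 L ⧸ Q.asIdeal)ˣ = p * n := by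
    rw [Nat.card_units, hc, hn]
  obtain ⟨d, hd⟩ := exists_pow_of_cyclic hcard hn0 hp0 (a := Units.mk0 _ hc0) (by
    apply Units.ext
    rw [Units.val_pow_eq_pow_val, Units.val_mk0, Units.val_one]
    exact hcn)
  obtain ⟨z, hz⟩ := Ideal.Quotient.mk_surjective (d : 𝓞 L ⧸ Q.asIdeal)
  have h2 : Ideal.Quotient.mk Q.asIdeal c = Ideal.Quotient.mk Q.asIdeal (z ^ p) := by
    have h3 := congrArg (fun u : (𝓞 L ⧸ Q.asIdeal)ˣ => (u : 𝓞 L ⧸ Q.asIdeal)) hd
    simp only [Units.val_pow_eq_pow_val, Units.val_mk0] at h3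
    rw [← h3, map_pow, hz]
  rw [Ideal.Quotient.mk_eq_mk_iff_sub_mem, ← Q.valuation_lt_one_iff_mem (K := L)] at h2
  change Q.valuation L (algebraMap (𝓞 L) L (c - z ^ p)) < 1 at h2
  rw [map_sub, map_pow, ← ht] at h2
  refine ⟨z, ?_⟩
  have h3 : b - algebraMap (𝓞 L) L z ^ p = (b - t) + (t - algebraMap (𝓞 L) L z ^ p) := by ring
  change Q.valuation L (b - algebraMap (𝓞 L) L z ^ p) < 1
  rw [h3]
  exact Valuation.map_add_lt _ hcb h2

end root

/-- **(c5)** as it is used in the completeness proof -/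
theorem uni {K L : Type} [Field K] [NumberField K] [Field L] [NumberField L] [Algebra K L] {q : ℕ}
    (D : Tor K L q) {Q : HeightOneSpectrum (𝓞 L)} {p T m' s r : ℕ} (hp : p.Prime) (hpq : ¬ p ∣ q)
    (hord : orderOf (p : ZMod q) = q - 1) (hT : nm Q - 1 = p ^ T * m') (hs : s < T) (hr : 1 ≤ r)
    (x y : Additive D.T) (hx : ∀ g : L ≃ₐ[K] L, (cj g Q).valuation L (D.el x) = 1)
    (hy : ∀ g : L ≃ₐ[K] L, (cj g Q).valuation L (D.el y) = 1)
    (hxs : ∀ g : L ≃ₐ[K] L, ∃ z : 𝓞 L, Q.valuation L (g (D.el x) - (z : L) ^ p ^ s) < 1)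
    (hyp : ∀ z : L, ¬ Q.valuation L (D.el y - z ^ p) < 1) :
    ∃ f₀ : Lam q, (p : Lam q) ^ s ∣ f₀ ∧ ∀ g : L ≃ₐ[K] L, (cj g Q).valuation L
      (D.el ((m' * nm Q ^ (r - 1) : ℕ) • x - (m' * nm Q ^ (r - 1) : ℕ) • f₀ • y) - 1) ≤
        exp (-(r : ℤ)) := by
  have h1 : ∀ {z : Additive D.T}, (∀ g : L ≃ₐ[K] L, (cj g Q).valuation L (D.el z) = 1) →
      ∀ g : L ≃ₐ[K] L, Q.valuation L (g (D.el z)) = 1 := by
    intro z hz g
    rw [val_app]
    exact hz _
  have hy0 : Q.valuation L (D.el y) = 1 := by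
    have := hy 1
    rwa [cj_one] at this
  have h2 : ¬ Q.valuation L (D.el y ^ (p ^ (T - 1) * m') - 1) < 1 := by
    intro h
    obtain ⟨z, hz⟩ := exists_root (p := p) (n := p ^ (T - 1) * m') (by
      rw [hT, ← mul_assoc, ← pow_succ', Nat.sub_add_cancel (by omega)]) hy0 h
    exact hyp _ hz
  obtain ⟨f₀, hf, hf'⟩ := D.c5 hp (pr_lam D.pq hp hpq hord) hT (h1 hy) h2 hs.le (h1 hx)
    fun g => by
      obtain ⟨z, hz⟩ := hxs g
      exact ⟨_, hz⟩
  refine ⟨f₀, hf, fun g => ?_⟩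
  have h3 := hf' (r - 1) g
  rw [Nat.sub_add_cancel hr, mul_smul ((m' * nm Q ^ (r - 1) : ℕ) : Lam q) f₀ y,
    Nat.cast_smul_eq_nsmul] at h3
  exact h3

end Pool.Agent.ZT
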