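import Pool.Agent.Lib.ZT.Res

/-!
# The torus modulo an auxiliary prime

The part killed by `p` of the torus modulo `Q` is one-dimensional over the field `Λ / p`.
-/

set_option autoImplicit false

namespace Pool.Agent.ZT

open NumberField IsDedekindDomain Polynomial Pool.Agent.ZD WithZero

section abs

variable {q : ℕ}

/-- the element of `Λ` with digits `c` -/
noncomputable def dg {p : ℕ} (c : Fin (q - 1) → Fin p) : Lam q :=
  ∑ i ∈ Finset.range (q - 1),
    (((if h : i < q - 1 then ((c ⟨i, h⟩ : ℕ) : ℤ) else 0 : ℤ)) : Lam q) * (AdjoinRoot.root (cyclotomic q ℤ)) ^ i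

theorem cf_dg (hq : q.Prime) {p : ℕ} (c : Fin (q - 1) → Fin p) (i : Fin (q - 1)) :
    cf (dg c) i = ((c i : ℕ) : ℤ) := by
  unfold dg
  rw [cf_sum hq, if_pos i.2, dif_pos i.2]

/-- counting: the part killed by `p` is generated by any non-zero element -/
theorem one_dim_abs (hq : q.Prime) {p : ℕ} (hp : Pr (Lam q) p) {A : Type} [AddCommGroup A]
    [Module (Lam q) A] (B : Submodule (Lam q) A) {X : Type} [Finite X] (hX : Nat.card X ≤ p)
    (f : {a : A // p • a ∈ B} → Fin (q - 1) → X) (hf : ∀ a b, f a = f b → (a : A) - b ∈ B)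
    {y : A} (hpy : p • y ∈ B) (hy : y ∉ B) {x : A} (hx : p • x ∈ B) : ∃ c : Lam q, x - c • y ∈ B := by
  have hmem : ∀ k : Lam q, p • (k • y) ∈ B := by
    intro k
    rw [smul_comm]
    exact B.smul_mem k hpy
  obtain ⟨g, hg⟩ : ∃ g : (Fin (q - 1) → Fin p) → (Fin (q - 1) → X),
      g = fun c => f ⟨dg c • y, hmem _⟩ := ⟨_, rfl⟩
  have hinj : Function.Injective g := by
    intro c c' hcc
    rw [hg] at hcc
    have h1 := hf _ _ hcc
    have h2 : (dg c - dg c') • y ∈ B := by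
      rw [sub_smul]
      exact h1
    have h3 : (p : Lam q) ∣ dg c - dg c' := by
      by_contra h3
      obtain ⟨u, v, huv⟩ := hp.inv _ h3
      apply hy
      have h4 : y = u • ((dg c - dg c') • y) - v • (p • y) := by
        rw [← mul_smul, huv, add_smul, one_smul, mul_comm, mul_smul, Nat.cast_smul_eq_nsmul,
          add_sub_cancel_right]
      rw [h4]
      exact B.sub_mem (B.smul_mem _ h2) (B.smul_mem _ hpy)
    funext i
    have h4 := (pow_dvd_iff p 1 (dg c - dg c')).1 (by rwa [pow_one]) i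
    rw [cf_sub, cf_dg hq, cf_dg hq, pow_one] at h4
    have h5 := (c i).2
    have h6 := (c' i).2
    apply Fin.ext
    have h7 : ((c i : ℕ) : ℤ) - (c' i : ℕ) = 0 := by
      apply Int.eq_zero_of_abs_lt_dvd h4
      rw [abs_lt]
      constructor <;> omega
    omega
  have hcard : Nat.card (Fin (q - 1) → X) ≤ Nat.card (Fin (q - 1) → Fin p) := by
    rw [Nat.card_fun, Nat.card_fun, Nat.card_fin, Nat.card_fin]
    exact Nat.pow_le_pow_left hX _
  obtain ⟨c, hc⟩ := (hinj.bijective_of_nat_card_le hcard).2 (f ⟨x, hx⟩)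
  rw [hg] at hc
  refine ⟨dg c, ?_⟩
  have h1 := hf _ _ hc.symm
  exact h1

end abs

section val

variable {L : Type} [Field L] [NumberField L]

theorem val_prod_sub (w : HeightOneSpectrum (𝓞 L)) {ι : Type} (s : Finset ι) (f : ι → L)
    (h : ∀ i ∈ s, w.valuation L (f i - 1) < 1) : w.valuation L (∏ i ∈ s, f i - 1) < 1 := by
  classical
  induction s using Finset.induction_on with
  | empty => rw [Finset.prod_empty, sub_self, map_zero]; exact zero_lt_one
  | insert a s ha ih =>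
    rw [Finset.prod_insert ha]
    have h1 := ih fun i hi => h i (Finset.mem_insert_of_mem hi)
    have h2 := h a (Finset.mem_insert_self a s)
    have h3 : f a * ∏ i ∈ s, f i - 1 = (f a - 1) * (∏ i ∈ s, f i - 1) + (f a - 1) + (∏ i ∈ s, f i - 1) := by
      ring
    rw [h3]
    refine Valuation.map_add_lt _ (Valuation.map_add_lt _ ?_ h2) h1
    rw [map_mul]
    exact mul_lt_one_of_nonneg_of_lt_one_left zero_le h2 h1.le

/-- the value of `z` is one if `z = 1` modulo `w` -/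
theorem val_eq_one_of_sub (w : HeightOneSpectrum (𝓞 L)) {z : L} (h : w.valuation L (z - 1) < 1) :
    w.valuation L z = 1 := by
  have h1 : z = 1 + (z - 1) := by ring
  rw [h1]
  exact Valuation.map_one_add_of_lt (w.valuation L) h

theorem val_inv_sub (w : HeightOneSpectrum (𝓞 L)) {z : L} (h : w.valuation L (z - 1) < 1) :
    w.valuation L (z⁻¹ - 1) < 1 := by
  have h1 := val_eq_one_of_sub w h
  have hz : z ≠ 0 := by
    rintro rfl
    rw [map_zero] at h1
    exact zero_ne_one h1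
  have h2 : z⁻¹ - 1 = -((z - 1) * z⁻¹) := by
    field_simp
    ring
  rw [h2, Valuation.map_neg, map_mul, map_inv₀, h1, inv_one, mul_one]
  exact h

theorem val_nm_lt (w : HeightOneSpectrum (𝓞 L)) : w.valuation L (nm w : L) < 1 := by
  have h1 : ((nm w : ℕ) : 𝓞 L) ∈ w.asIdeal := Ideal.absNorm_mem _
  have h2 := (w.valuation_lt_one_iff_mem (K := L) _).2 h1
  have h3 : (((nm w : ℕ) : 𝓞 L) : L) = (nm w : L) := map_natCast (algebraMap (𝓞 L) L) _
  rw [← h3]
  exact h2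

/-- `N`-th powers, `N` the norm -/
theorem val_pow_step (w : HeightOneSpectrum (𝓞 L)) {z : L} {k : ℕ} (hk : 1 ≤ k)
    (h : w.valuation L (z - 1) ≤ exp (-(k : ℤ))) :
    w.valuation L (z ^ nm w - 1) ≤ exp (-((k + 1 : ℕ) : ℤ)) := by
  have h0 : w.valuation L (z - 1) < 1 := by
    refine h.trans_lt ?_
    rw [← exp_zero, exp_lt_exp]
    omega
  have h1 : z ^ nm w - 1 = (z - 1) * ∑ i ∈ Finset.range (nm w), z ^ i := (mul_geom_sum z _).symm
  have h2 : ∑ i ∈ Finset.range (nm w), z ^ i = ∑ i ∈ Finset.range (nm w), (z ^ i - 1) + (nm w : L) := by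
    rw [Finset.sum_sub_distrib]
    simp
  have h3 : w.valuation L (∑ i ∈ Finset.range (nm w), z ^ i) ≤ exp (-1) := by
    rw [h2]
    refine (Valuation.map_add _ _ _).trans (max_le ?_ ?_)
    · refine val_sum_le w _ _ fun i _ => ?_
      rw [← lt_one_iff_le_exp]
      have h4 := val_prod_sub w (Finset.range i) (fun _ => z) fun _ _ => h0
      rwa [Finset.prod_const, Finset.card_range] at h4
    · rw [← lt_one_iff_le_exp]
      exact val_nm_lt w
  rw [h1, map_mul]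
  refine (mul_le_mul' h h3).trans ?_
  rw [← exp_add, exp_le_exp]
  push_cast
  omega

theorem val_pow_pow (w : HeightOneSpectrum (𝓞 L)) {z : L} (h : w.valuation L (z - 1) < 1) (r : ℕ) :
    w.valuation L (z ^ (nm w ^ r) - 1) ≤ exp (-((r + 1 : ℕ) : ℤ)) := by
  induction r with
  | zero =>
    rw [pow_zero, pow_one]
    exact (lt_one_iff_le_exp _).1 h
  | succ r ih =>
    rw [pow_succ, pow_mul]
    exact val_pow_step w (by omega) ih

end val

namespace Tor

variable {K L : Type} [Field K] [NumberField K] [Field L] [NumberField L] [Algebra K L] {q : ℕ}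
  (D : Tor K L q)

/-- an element of the torus is in `Bq Q` if its conjugates by `σ ^ j` are one modulo `Q` -/
theorem mem_Bq_of {Q : HeightOneSpectrum (𝓞 L)} {x : Additive D.T}
    (h : ∀ j < q - 1, Q.valuation L ((D.σ ^ j) (D.el x) - 1) < 1) : x ∈ D.Bq Q := by
  have hq := D.pq.two_le
  have hT := D.mem_T.1 (D.el_mem x)
  have hprod : ∏ i ∈ Finset.range q, (D.σ ^ i) (D.el x) = 1 := hT.2
  have htau : D.el x * D.τ (D.el x) = 1 := hT.1
  -- the last conjugate
  have hall : ∀ j < q, Q.valuation L ((D.σ ^ j) (D.el x) - 1) < 1 := by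
    intro j hj
    by_cases hj' : j < q - 1
    · exact h j hj'
    have hj2 : j = q - 1 := by omega
    have hs : (q - 1) + 1 = q := by omega
    have hprod' : ∏ i ∈ Finset.range ((q - 1) + 1), (D.σ ^ i) (D.el x) = 1 := by
      rw [hs]
      exact hprod
    rw [Finset.prod_range_succ] at hprod'
    have h1 : (D.σ ^ (q - 1)) (D.el x) = (∏ i ∈ Finset.range (q - 1), (D.σ ^ i) (D.el x))⁻¹ :=
      eq_inv_of_mul_eq_one_right hprod'
    rw [hj2, h1]
    exact val_inv_sub Q (val_prod_sub Q _ _ fun i hi => h i (Finset.mem_range.1 hi))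
  rw [mem_Bq]
  intro g
  rw [cj_val', map_sub, map_one]
  obtain ⟨i, hi, hg | hg⟩ := D.gen g⁻¹
  · rw [hg]
    exact hall i hi
  · have h1 : D.τ (D.el x) = (D.el x)⁻¹ := eq_inv_of_mul_eq_one_right htau
    have h2 : g⁻¹ (D.el x) = ((D.σ ^ i) (D.el x))⁻¹ := by
      rw [hg, AlgEquiv.mul_apply, h1, map_inv₀]
    rw [h2]
    exact val_inv_sub Q (hall i hi)

/-- the conjugates of an element of `Bq Q` -/
theorem app_of_mem_Bq {Q : HeightOneSpectrum (𝓞 L)} {x : Additive D.T} (h : x ∈ D.Bq Q) (g : L ≃ₐ[K] L) :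
    Q.valuation L (g (D.el x) - 1) < 1 := by
  have h1 := D.mem_Bq.1 h g⁻¹
  rwa [cj_val', inv_inv, map_sub, map_one] at h1

/-- **The part killed by `p` is one-dimensional.** -/
theorem one_dim {Q : HeightOneSpectrum (𝓞 L)} {p : ℕ} (pp : p.Prime) (hp : Pr (Lam q) p)
    {x y : Additive D.T} (hpy : p • y ∈ D.Bq Q) (hy : y ∉ D.Bq Q) (hx : p • x ∈ D.Bq Q) :
    ∃ c : Lam q, x - c • y ∈ D.Bq Q := by
  classical
  have hmax : Q.asIdeal.IsMaximal := Q.isMaximal
  have hdom : IsDomain (𝓞 L ⧸ Q.asIdeal) := Ideal.Quotient.isDomain _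
  have hne : NeZero p := ⟨pp.ne_zero⟩
  -- integral representatives
  have key : ∀ (a : {a : Additive D.T // p • a ∈ D.Bq Q}) (j : Fin (q - 1)), ∃ z : 𝓞 L,
      Q.valuation L ((D.σ ^ (j : ℕ)) (D.el a) - algebraMap (𝓞 L) L z) < 1 ∧
      (Ideal.Quotient.mk Q.asIdeal z) ^ p = 1 := by
    intro a j
    obtain ⟨s, hs⟩ : ∃ s : L, s = (D.σ ^ (j : ℕ)) (D.el a) := ⟨_, rfl⟩
    have h1 := D.app_of_mem_Bq a.2 (D.σ ^ (j : ℕ))
    rw [el_nsmul, map_pow, ← hs] at h1
    have h2 : Q.valuation L s = 1 := by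
      have h3 := val_eq_one_of_sub Q h1
      rw [map_pow] at h3
      exact one_of_pow pp.ne_zero h3
    obtain ⟨z, hz⟩ := HeightOneSpectrum.exists_valuation_sub_lt_of_integer (R := 𝓞 L) (K := L) Q h2.le 1
    have hz' : Q.valuation L (s - algebraMap (𝓞 L) L z) < 1 := by
      have := hz
      rw [← Valuation.map_neg, neg_sub]
      simpa using this
    refine ⟨z, by rw [← hs]; exact hz', ?_⟩
    rw [← map_pow, ← map_one (Ideal.Quotient.mk Q.asIdeal), Ideal.Quotient.mk_eq_mk_iff_sub_mem,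
      ← Q.valuation_lt_one_iff_mem (K := L)]
    change Q.valuation L (algebraMap (𝓞 L) L (z ^ p - 1)) < 1
    rw [map_sub, map_pow, map_one]
    obtain ⟨t, ht⟩ : ∃ t : L, t = algebraMap (𝓞 L) L z := ⟨_, rfl⟩
    rw [← ht] at hz' ⊢
    have h4 : t ^ p - 1 = (s ^ p - 1) - (s ^ p - t ^ p) := by ring
    rw [h4]
    refine Valuation.map_sub_lt _ h1 ?_
    obtain ⟨c, hc⟩ := sub_dvd_pow_sub_pow s t p
    have h5 : s ^ p - t ^ p = (s - t) * ∑ i ∈ Finset.range p, s ^ i * t ^ (p - 1 - i) := by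
      rw [mul_comm]
      exact (geom_sum₂_mul s t p).symm
    rw [h5, map_mul]
    have ht1 : Q.valuation L t ≤ 1 := by
      rw [ht]
      exact Q.valuation_le_one _
    refine (mul_le_of_le_one_right zero_le ?_).trans_lt hz'
    refine val_sum_le Q _ _ fun i _ => ?_
    rw [map_mul, map_pow, map_pow, h2, one_pow, one_mul]
    exact pow_le_one₀ zero_le ht1
  choose z hz1 hz2 using key
  refine one_dim_abs D.pq hp (D.Bq Q) (X := rootsOfUnity p (𝓞 L ⧸ Q.asIdeal)) ?_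
    (fun a j => rootsOfUnity.mkOfPowEq _ (hz2 a j)) ?_ hpy hy hx
  · exact card_rootsOfUnity _ p
  · intro a b hab
    apply D.mem_Bq_of
    intro j hj
    have h1 := congrFun hab ⟨j, hj⟩
    have h2 : Ideal.Quotient.mk Q.asIdeal (z a ⟨j, hj⟩) = Ideal.Quotient.mk Q.asIdeal (z b ⟨j, hj⟩) := by
      have h3 := congrArg (fun u : rootsOfUnity p (𝓞 L ⧸ Q.asIdeal) => ((u : (𝓞 L ⧸ Q.asIdeal)ˣ) : 𝓞 L ⧸ Q.asIdeal)) h1
      simpa using h3
    rw [Ideal.Quotient.mk_eq_mk_iff_sub_mem, ← Q.valuation_lt_one_iff_mem (K := L)] at h2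
    change Q.valuation L (algebraMap (𝓞 L) L (z a ⟨j, hj⟩ - z b ⟨j, hj⟩)) < 1 at h2
    rw [map_sub] at h2
    have h3 := hz1 a ⟨j, hj⟩
    have h4 := hz1 b ⟨j, hj⟩
    obtain ⟨s, hs⟩ : ∃ s : L, s = (D.σ ^ j) (D.el a) := ⟨_, rfl⟩
    obtain ⟨t, ht⟩ : ∃ t : L, t = (D.σ ^ j) (D.el b) := ⟨_, rfl⟩
    simp only at h3 h4
    rw [← hs] at h3
    rw [← ht] at h4
    have h5 : Q.valuation L (s - t) < 1 := by
      have h6 : s - t = (s - algebraMap (𝓞 L) L (z a ⟨j, hj⟩)) +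
          (algebraMap (𝓞 L) L (z a ⟨j, hj⟩) - algebraMap (𝓞 L) L (z b ⟨j, hj⟩)) -
          (t - algebraMap (𝓞 L) L (z b ⟨j, hj⟩)) := by ring
      rw [h6]
      exact Valuation.map_sub_lt _ (Valuation.map_add_lt _ h3 h2) h4
    have ht1 : Q.valuation L t = 1 := by
      have h7 := D.app_of_mem_Bq b.2 (D.σ ^ j)
      rw [el_nsmul, map_pow, ← ht] at h7
      have h8 := val_eq_one_of_sub Q h7
      rw [map_pow] at h8
      exact one_of_pow pp.ne_zero h8
    have ht0 : t ≠ 0 := by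
      rintro rfl
      rw [map_zero] at ht1
      exact zero_ne_one ht1
    rw [el_sub, map_div₀, ← hs, ← ht]
    have h9 : s / t - 1 = (s - t) * t⁻¹ := by
      field_simp
    rw [h9, map_mul, map_inv₀, ht1, inv_one, mul_one]
    exact h5

/-- induction on the order -/
theorem gen_of {Q : HeightOneSpectrum (𝓞 L)} {p : ℕ} (pp : p.Prime) (hp : Pr (Lam q) p) {T : ℕ}
    {y : Additive D.T} (hpy : p ^ T • y ∈ D.Bq Q) (hy : p ^ (T - 1) • y ∉ D.Bq Q) :
    ∀ k ≤ T, ∀ x : Additive D.T, p ^ k • x ∈ D.Bq Q →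
      ∃ c : Lam q, (p : Lam q) ^ (T - k) ∣ c ∧ x - c • y ∈ D.Bq Q := by
  intro k
  induction k with
  | zero =>
    intro _ x hx
    rw [pow_zero, one_smul] at hx
    refine ⟨0, dvd_zero _, ?_⟩
    rw [zero_smul (Lam q) y, sub_zero]
    exact hx
  | succ k ih =>
    intro hk x hx
    have h1 : p • (p ^ k • x) ∈ D.Bq Q := by
      rwa [← mul_smul, ← pow_succ']
    have h2 : p • (p ^ (T - 1) • y) ∈ D.Bq Q := by
      rw [← mul_smul, ← pow_succ', Nat.sub_add_cancel (by omega)]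
      exact hpy
    obtain ⟨c, hc⟩ := D.one_dim pp hp h2 hy h1
    have h3 : p ^ k • (x - ((p : Lam q) ^ (T - 1 - k) * c) • y) ∈ D.Bq Q := by
      have h4 : p ^ k • (x - ((p : Lam q) ^ (T - 1 - k) * c) • y) = p ^ k • x - c • (p ^ (T - 1) • y) := by
        have h5 : T - 1 = k + (T - 1 - k) := by omega
        have h6 : ∀ (n : ℕ) (a : Additive D.T), p ^ n • a = ((p : Lam q) ^ n) • a := by
          intro n a
          rw [← Nat.cast_pow, Nat.cast_smul_eq_nsmul]
        rw [h6, h6, h6, smul_sub, ← mul_smul, ← mul_smul]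
        congr 2
        conv_rhs => rw [h5, pow_add]
        ring
      rw [h4]
      exact hc
    obtain ⟨c', hc1, hc2⟩ := ih (by omega) _ h3
    refine ⟨(p : Lam q) ^ (T - 1 - k) * c + c', dvd_add ?_ ?_, ?_⟩
    · have h5 : T - (k + 1) = T - 1 - k := by omega
      rw [h5]
      exact dvd_mul_right _ _
    · exact (pow_dvd_pow _ (by omega)).trans hc1
    · rw [add_smul, ← sub_sub]
      exact hc2

/-- **(c5)** -/
theorem c5 {Q : HeightOneSpectrum (𝓞 L)} {p T m' : ℕ} (pp : p.Prime) (hp : Pr (Lam q) p)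
    (hT : nm Q - 1 = p ^ T * m') {x y : Additive D.T}
    (hy : ∀ g : L ≃ₐ[K] L, Q.valuation L (g (D.el y)) = 1)
    (hy' : ¬ Q.valuation L (D.el y ^ (p ^ (T - 1) * m') - 1) < 1) {s : ℕ} (hs : s ≤ T)
    (hx : ∀ g : L ≃ₐ[K] L, Q.valuation L (g (D.el x)) = 1)
    (hx' : ∀ g : L ≃ₐ[K] L, ∃ z : L, Q.valuation L (g (D.el x) - z ^ (p ^ s)) < 1) :
    ∃ f₀ : Lam q, (p : Lam q) ^ s ∣ f₀ ∧ ∀ (r : ℕ) (g : L ≃ₐ[K] L),
      (cj g Q).valuation L (D.el ((m' * nm Q ^ r) • x - ((m' * nm Q ^ r : ℕ) * f₀ : Lam q) • y) - 1) ≤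
        exp (-((r + 1 : ℕ) : ℤ)) := by
  have hcj : ∀ {z : Additive D.T}, (∀ g : L ≃ₐ[K] L, Q.valuation L (g (D.el z)) = 1) →
      ∀ g : L ≃ₐ[K] L, (cj g Q).valuation L (D.el z) = 1 := by
    intro z hz g
    rw [cj_val']
    exact hz _
  have h1 : p ^ T • (m' • y) ∈ D.Bq Q := by
    rw [← mul_smul, ← hT]
    exact D.nm_smul_mem (hcj hy)
  have h2 : p ^ (T - 1) • (m' • y) ∉ D.Bq Q := by
    rw [← mul_smul]
    intro h
    have h3 := D.mem_Bq.1 h 1
    rw [cj_one, el_nsmul] at h3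
    exact hy' h3
  have h3 : p ^ (T - s) • (m' • x) ∈ D.Bq Q := by
    rw [← mul_smul, mem_Bq]
    intro g
    rw [cj_val', map_sub, map_one, el_nsmul, map_pow]
    obtain ⟨z, hz⟩ := hx' g⁻¹
    have hx1 := hx g⁻¹
    obtain ⟨a, ha⟩ : ∃ a : L, a = g⁻¹ (D.el x) := ⟨_, rfl⟩
    rw [← ha] at hz hx1 ⊢
    have hzp : Q.valuation L (z ^ p ^ s) = 1 := by
      have h4 : z ^ p ^ s = a - (a - z ^ p ^ s) := by ring
      rw [h4, Valuation.map_sub_eq_of_lt_left _ (by rw [hx1]; exact hz)]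
      exact hx1
    have hz1 : Q.valuation L z = 1 := by
      rw [map_pow] at hzp
      exact one_of_pow (pow_pos pp.pos _).ne' hzp
    have h5 := val_pow_nm Q hz1
    rw [hT] at h5
    obtain ⟨b, hb⟩ : ∃ b : L, b = z ^ p ^ s := ⟨_, rfl⟩
    rw [← hb] at hz hzp
    have h6 : z ^ (p ^ T * m') = b ^ (p ^ (T - s) * m') := by
      rw [hb, ← pow_mul, ← mul_assoc, ← pow_add, Nat.add_sub_cancel' hs]
    rw [h6] at h5
    have h7 : a ^ (p ^ (T - s) * m') - 1 = (b ^ (p ^ (T - s) * m') - 1) +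
        (a ^ (p ^ (T - s) * m') - b ^ (p ^ (T - s) * m')) := by ring
    rw [h7]
    refine Valuation.map_add_lt _ h5 ?_
    have h8 := (geom_sum₂_mul a b (p ^ (T - s) * m')).symm
    rw [h8, map_mul]
    refine (mul_le_of_le_one_left zero_le ?_).trans_lt hz
    refine val_sum_le Q _ _ fun i _ => ?_
    rw [map_mul, map_pow, map_pow, hx1, hzp, one_pow, one_pow, one_mul]
  obtain ⟨f₀, hf1, hf2⟩ := D.gen_of pp hp h1 h2 (T - s) (by omega) _ h3
  rw [Nat.sub_sub_self hs] at hf1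
  refine ⟨f₀, hf1, fun r g => ?_⟩
  have h4 := D.mem_Bq.1 hf2 g
  have h5 : (m' * nm Q ^ r) • x - ((m' * nm Q ^ r : ℕ) * f₀ : Lam q) • y =
      (nm Q ^ r) • (m' • x - f₀ • (m' • y)) := by
    rw [nsmul_sub, ← mul_smul, mul_comm (nm Q ^ r) m', mul_smul (((m' * nm Q ^ r : ℕ)) : Lam q) f₀ y,
      Nat.cast_smul_eq_nsmul, smul_comm f₀ m' y, ← mul_smul (nm Q ^ r) m', mul_comm (nm Q ^ r) m']
  rw [h5, el_nsmul, ← nm_cj g Q]
  exact val_pow_pow _ h4 r

/-- in (c5) the point `f₀ y` is not trivial if `x ^ (n e)` is not one modulo `Q` -/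
theorem c5_ne {Q : HeightOneSpectrum (𝓞 L)} {x y : Additive D.T} {k : Lam q} {n e : ℕ}
    (h : Q.valuation L (D.el (n • x - k • y) - 1) < 1)
    (hx : ¬ Q.valuation L (D.el x ^ (n * e) - 1) < 1) : k • y ≠ 0 := by
  intro h0
  apply hx
  rw [h0, sub_zero, el_nsmul] at h
  have h4 := val_prod_sub Q (Finset.range e) (fun _ => D.el x ^ n) fun _ _ => h
  rwa [Finset.prod_const, Finset.card_range, ← pow_mul] at h4

end Tor

end Pool.Agent.ZT
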