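import Pool.Agent.Lib.ZT.Str
import Pool.Agent.Lib.ZT.Uni

/-!
# The structure theorem in the form used for the final system
-/

set_option autoImplicit false

namespace Pool.Agent.ZT

open NumberField IsDedekindDomain Polynomial Pool.Agent.ZD WithZero

section spl

variable {K L : Type} [Field K] [NumberField K] [Field L] [NumberField L] [Algebra K L] [IsGalois K L]

theorem nm_spl {v : HeightOneSpectrum (𝓞 K)} (hv : v ∈ Spl K L) {w : HeightOneSpectrum (𝓞 L)}
    (hw : w ∈ abv L v) : nm w = nm v := by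
  obtain ⟨e, f, he, hf, h1, h2, -⟩ := local_data (L := L) v
  have h3 : (abv L v).ncard = Module.finrank K L := hv
  have h4 : 0 < Module.finrank K L := Module.finrank_pos
  rw [h3] at h1
  have h5 : e * f = 1 := Nat.eq_of_mul_eq_mul_left h4 (by rw [h1, mul_one])
  have h6 : f = 1 := Nat.eq_one_of_mul_eq_one_left h5
  rw [h2 w hw, h6, pow_one]

end spl

theorem ord_ge {L : Type} [Field L] [NumberField L] (w : HeightOneSpectrum (𝓞 L)) {x : L} (hx : x ≠ 0)
    {N : ℤ} (h : w.valuation L x ≤ exp N) : -N ≤ ord w x := by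
  have h0 : w.valuation L x ≠ 0 := (_root_.map_ne_zero _).2 hx
  rw [← exp_log h0, exp_le_exp] at h
  unfold ord
  omega

namespace Tor

variable {K L : Type} [Field K] [NumberField K] [Field L] [NumberField L] [Algebra K L] {q : ℕ}
  (D : Tor K L q)

theorem oh_eq_zero_iff (w : HeightOneSpectrum (𝓞 L)) (x : Additive D.T) :
    D.oh w x = 0 ↔ w.valuation L (D.el x) = 1 := by
  rw [oh_apply]
  exact ord_eq_zero_iff w (D.el_ne x)

/-- **The package**: the point `P`, its order at `w₀`, the structure of the points with poles above `v`.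
`h` is the class number and `μ` the number of roots of unity of `L`. -/
theorem pak [IsGalois K L] {v : HeightOneSpectrum (𝓞 K)} (hv : v ∈ Spl K L) :
    ∃ (P : Additive D.T) (w₀ : HeightOneSpectrum (𝓞 L)), w₀ ∈ abv L v ∧
      (∀ w, w ∉ abv L v → w.valuation L (D.el P) = 1) ∧
      ord w₀ (D.el P) = classNumber L ∧
      ∀ (n : ℕ) (y : Additive D.T), (∀ w, w ∉ abv L v → w.valuation L (D.el y) = 1) →
        ∃ k : Lam q, (classNumber L * Units.torsionOrder L * n) • y =
            k • ((Units.torsionOrder L * n) • P) ∧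
          ∀ N : ℕ, (∀ w ∈ abv L v, w.valuation L (D.el y) ≤ exp (N : ℤ)) → ∀ i, |cf k i| ≤ q * N := by
  classical
  obtain ⟨w₀, hw₀⟩ := abv_nonempty (L := L) v
  obtain ⟨P, hP0, hP1, hP⟩ := D.str hv hw₀
  have hq := D.pq.two_le
  refine ⟨P, w₀, hw₀, fun w hw => (D.oh_eq_zero_iff w P).1 (hP0 w hw), ?_, ?_⟩
  · have h1 := hP1 0 (by omega)
    rw [pow_zero, cj_one, oh_apply] at h1
    rw [h1]
    simp
  · intro n y hy
    obtain ⟨k, hk1, hk2⟩ := hP y fun u hu => (D.oh_eq_zero_iff u y).2 (hy u hu)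
    refine ⟨k, ?_, ?_⟩
    · have h1 : (classNumber L * Units.torsionOrder L * n) • y =
          n • ((Units.torsionOrder L * classNumber L) • y) := by
        rw [← mul_smul]
        congr 1
        ring
      rw [h1, hk1, ← mul_smul, smul_comm k, mul_comm n]
    · intro N hN i
      by_cases hi : i < q - 1
      · rw [hk2 i hi]
        refine (Finset.abs_sum_le_sum_abs _ _).trans ?_
        have hb : ∀ j ∈ Finset.range (i + 1), |D.oh (cj (D.σ ^ j) w₀) y| ≤ (N : ℤ) := by
          intro j _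
          rw [abs_le]
          constructor
          · rw [oh_apply]
            exact ord_ge _ (D.el_ne y) (hN _ (cj_mem_abv _ hw₀))
          · have h1 := D.oh_τ (cj (D.σ ^ j) w₀) y
            have h2 := ord_ge _ (D.el_ne y) (hN _ (cj_mem_abv D.τ (cj_mem_abv (D.σ ^ j) hw₀)))
            rw [← oh_apply, h1] at h2
            linarith
        refine (Finset.sum_le_sum hb).trans ?_
        rw [Finset.sum_const, Finset.card_range, nsmul_eq_mul]
        refine mul_le_mul_of_nonneg_right ?_ (by positivity)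
        exact_mod_cast (by omega : i + 1 ≤ q)
      · rw [cf_eq_zero D.pq k (by omega), abs_zero]
        positivity

/-- powers of a unit at a split prime with residue field of `p` elements -/
theorem mem_Fv_one [IsGalois K L] {v₃ : HeightOneSpectrum (𝓞 K)} (hv : v₃ ∈ Spl K L) {x : Additive D.T}
    (hx : ∀ w ∈ abv L v₃, w.valuation L (D.el x) = 1) (n : ℕ) :
    (n * (nm v₃ - 1)) • x ∈ D.Fv v₃ 1 := by
  intro w hw
  rw [el_nsmul]
  have h1 := val_pow_nm w (hx w hw)
  rw [nm_spl hv hw] at h1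
  have h4 := val_prod_sub w (Finset.range n) (fun _ => D.el x ^ (nm v₃ - 1)) fun _ _ => h1
  rw [Finset.prod_const, Finset.card_range, ← pow_mul, mul_comm] at h4
  exact (lt_one_iff_le_exp _).1 h4

/-- a point with a non-zero order is not a torsion point -/
theorem nsmul_ne {w : HeightOneSpectrum (𝓞 L)} {x : Additive D.T} (hx : ord w (D.el x) ≠ 0) {n : ℕ}
    (hn : n ≠ 0) : D.el (n • x) ≠ 1 := by
  intro h
  have h1 : D.oh w (n • x) = n • D.oh w x := map_nsmul _ _ _
  rw [oh_apply, oh_apply, h, ord_one, nsmul_eq_mul] at h1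
  rcases mul_eq_zero.1 h1.symm with h2 | h2
  · exact hn (by exact_mod_cast h2)
  · exact hx h2

/-- the level of a non-trivial point in the filtration at `v` -/
theorem exists_level {v : HeightOneSpectrum (𝓞 K)} {x : Additive D.T} (h1 : x ∈ D.Fv v 1)
    (hx : D.el x ≠ 1) : ∃ l, 1 ≤ l ∧ x ∈ D.Fv v l ∧ x ∉ D.Fv v (l + 1) := by
  classical
  have hx0 : x ≠ 0 := by
    rintro rfl
    exact hx D.el_zero
  have hex : ∃ n, x ∉ D.Fv v (n + 1) := by
    obtain ⟨n, hn⟩ := D.fil_sep (v := v) hx0
    cases n with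
    | zero =>
      refine ⟨0, fun h => hn ?_⟩
      intro w hw
      refine (h w hw).trans ?_
      rw [exp_le_exp]
      simp
    | succ n => exact ⟨n, hn⟩
  have h2 := Nat.find_spec hex
  have h3 : Nat.find hex ≠ 0 := by
    intro h
    rw [h] at h2
    exact h2 h1
  refine ⟨Nat.find hex, Nat.pos_of_ne_zero h3, ?_, h2⟩
  have h4 := Nat.find_min hex (Nat.sub_lt (Nat.pos_of_ne_zero h3) one_pos)
  have h5 : Nat.find hex - 1 + 1 = Nat.find hex := Nat.sub_add_cancel (Nat.pos_of_ne_zero h3)
  rw [not_not, h5] at h4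
  exact h4

end Tor

/-- **The end of the soundness proof**: `h t - k` divisible by `p ^ A`, the coefficients of `k` bounded -/
theorem cf_eq_zero_of_dvd {q : ℕ} (hq : q.Prime) {p A : ℕ} {n : ℤ} {k : Lam q}
    (h : (p : Lam q) ^ A ∣ (n : Lam q) - k) {C : ℤ} (hC : ∀ i, |cf k i| ≤ C) (hA : C < (p : ℤ) ^ A) :
    k = ((cf k 0 : ℤ) : Lam q) ∧ (p : ℤ) ^ A ∣ n - cf k 0 := by
  have h1 := (pow_dvd_iff p A _).1 h
  have h2 : ∀ i, i ≠ 0 → cf k i = 0 := by
    intro i hi
    have h3 := h1 i
    rw [cf_sub, cf_int hq, if_neg hi, zero_sub, dvd_neg] at h3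
    exact Int.eq_zero_of_abs_lt_dvd h3 ((hC i).trans_lt hA)
  constructor
  · have hs := hq.two_le
    conv_lhs => rw [eq_sum hq k]
    rw [Finset.sum_eq_single 0]
    · rw [pow_zero, mul_one]
    · intro i _ hi
      rw [h2 i hi, Int.cast_zero, zero_mul]
    · intro h4
      exact absurd (Finset.mem_range.2 (by omega)) h4
  · have h3 := h1 0
    rwa [cf_sub, cf_int hq, if_pos rfl] at h3

end Pool.Agent.ZT
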