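import Pool.Agent.Lib.ZD.Split

/-!
# Tori over number fields: definitions

`L / K` is a Galois extension of number fields with the group `⟨σ⟩ × ⟨τ⟩` of order `2 q`, `τ` is the complex
conjugation. `T = {x | x * τ x = 1, ∏ σ ^ i x = 1}` is a module over `Lam q = ℤ[ζ_q]`.
-/

set_option autoImplicit false

namespace Pool.Agent.ZT

open NumberField IsDedekindDomain Polynomial Pool.Agent.ZD WithZero

/-- `ℤ[ζ_q]` -/
abbrev Lam (q : ℕ) : Type := AdjoinRoot (cyclotomic q ℤ)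

section cj

variable {K L : Type} [Field K] [NumberField K] [Field L] [NumberField L] [Algebra K L]

/-- the automorphism of the ring of integers induced by `g` -/
noncomputable def gO (g : L ≃ₐ[K] L) : 𝓞 L ≃+* 𝓞 L := RingOfIntegers.mapRingEquiv g.toRingEquiv

theorem gO_coe (g : L ≃ₐ[K] L) (x : 𝓞 L) : ((gO g x : 𝓞 L) : L) = g x := rfl

/-- the conjugate prime `g w` -/
noncomputable def cj (g : L ≃ₐ[K] L) (w : HeightOneSpectrum (𝓞 L)) : HeightOneSpectrum (𝓞 L) where
  asIdeal := w.asIdeal.map (gO g)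
  isPrime := Ideal.map_isPrime_of_equiv (gO g)
  ne_bot := by
    rw [Ne, Ideal.map_eq_bot_iff_of_injective (gO g).injective]
    exact w.ne_bot

theorem mem_cj_pow (g : L ≃ₐ[K] L) (w : HeightOneSpectrum (𝓞 L)) (n : ℕ) (r : 𝓞 L) :
    gO g r ∈ (cj g w).asIdeal ^ n ↔ r ∈ w.asIdeal ^ n := by
  have h : (cj g w).asIdeal ^ n = (w.asIdeal ^ n).map (gO g) := (Ideal.map_pow _ _ _).symm
  rw [h, Ideal.mem_map_of_equiv]
  constructor
  · rintro ⟨x, hx, hxr⟩
    rw [← (gO g).injective hxr]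
    exact hx
  · intro hr
    exact ⟨r, hr, rfl⟩

theorem cj_int (g : L ≃ₐ[K] L) (w : HeightOneSpectrum (𝓞 L)) (r : 𝓞 L) :
    (cj g w).intValuation (gO g r) = w.intValuation r := by
  have key : ∀ n : ℕ, (cj g w).intValuation (gO g r) ≤ exp (-(n : ℤ)) ↔
      w.intValuation r ≤ exp (-(n : ℤ)) := by
    intro n
    rw [HeightOneSpectrum.intValuation_le_pow_iff_mem, HeightOneSpectrum.intValuation_le_pow_iff_mem,
      mem_cj_pow]
  by_cases hr : r = 0
  · rw [hr, map_zero, map_zero, map_zero]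
  have hr' : gO g r ≠ 0 := by rwa [Ne, map_eq_zero_iff _ (gO g).injective]
  have h1 := (cj g w).intValuation_eq_exp_neg_multiplicity hr'
  have h2 := w.intValuation_eq_exp_neg_multiplicity hr
  apply le_antisymm
  · rw [h2, key, h2]
  · rw [h1, ← key, h1]

/-- the valuation of the conjugate prime -/
theorem cj_val (g : L ≃ₐ[K] L) (w : HeightOneSpectrum (𝓞 L)) (x : L) :
    (cj g w).valuation L (g x) = w.valuation L x := by
  obtain ⟨a, b, hb, rfl⟩ := IsFractionRing.div_surjective (A := 𝓞 L) x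
  have h1 : ∀ a : 𝓞 L, (cj g w).valuation L (g (algebraMap (𝓞 L) L a)) =
      w.valuation L (algebraMap (𝓞 L) L a) := by
    intro a
    have h2 : g (algebraMap (𝓞 L) L a) = algebraMap (𝓞 L) L (gO g a) := rfl
    rw [h2, HeightOneSpectrum.valuation_of_algebraMap, HeightOneSpectrum.valuation_of_algebraMap,
      cj_int]
  rw [map_div₀, map_div₀, map_div₀, h1, h1]

theorem cj_val' (g : L ≃ₐ[K] L) (w : HeightOneSpectrum (𝓞 L)) (x : L) :
    (cj g w).valuation L x = w.valuation L (g⁻¹ x) := by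
  rw [← cj_val g w (g⁻¹ x)]
  congr 1
  exact (AlgEquiv.apply_symm_apply g x).symm

theorem cj_one (w : HeightOneSpectrum (𝓞 L)) : cj (1 : L ≃ₐ[K] L) w = w := by
  apply HeightOneSpectrum.ext
  ext r
  have h := mem_cj_pow (1 : L ≃ₐ[K] L) w 1 r
  rw [pow_one, pow_one] at h
  exact h

theorem cj_mul (g h : L ≃ₐ[K] L) (w : HeightOneSpectrum (𝓞 L)) : cj (g * h) w = cj g (cj h w) := by
  apply HeightOneSpectrum.ext
  ext r
  have h1 := mem_cj_pow (g * h) w 1 ((gO (g * h)).symm r)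
  have h2 := mem_cj_pow g (cj h w) 1 ((gO g).symm r)
  have h3 := mem_cj_pow h w 1 ((gO h).symm ((gO g).symm r))
  simp only [RingEquiv.apply_symm_apply, pow_one] at h1 h2 h3
  rw [h1, h2, h3]
  exact Iff.rfl

theorem cj_under (g : L ≃ₐ[K] L) (w : HeightOneSpectrum (𝓞 L)) :
    (cj g w).under (𝓞 K) = w.under (𝓞 K) := by
  apply HeightOneSpectrum.ext
  ext r
  have h := mem_cj_pow g w 1 (algebraMap (𝓞 K) (𝓞 L) r)
  rw [pow_one, pow_one] at h
  have h2 : gO g (algebraMap (𝓞 K) (𝓞 L) r) = algebraMap (𝓞 K) (𝓞 L) r := by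
    apply RingOfIntegers.ext
    exact g.commutes (r : K)
  rw [h2] at h
  exact h

theorem cj_mem_abv (g : L ≃ₐ[K] L) {v : HeightOneSpectrum (𝓞 K)} {w : HeightOneSpectrum (𝓞 L)}
    (h : w ∈ abv L v) : cj g w ∈ abv L v := by
  unfold abv at h ⊢
  exact (cj_under g w).trans h

end cj

/-- **The data**: a Galois extension `L / K` with the group `⟨σ⟩ × ⟨τ⟩` of order `2 q`, `q` an odd prime, `τ` the
complex conjugation for every embedding of `L`. -/
structure Tor (K L : Type) [Field K] [NumberField K] [Field L] [NumberField L] [Algebra K L]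
    (q : ℕ) where
  σ : L ≃ₐ[K] L
  τ : L ≃ₐ[K] L
  pq : q.Prime
  q2 : q ≠ 2
  σq : σ ^ q = 1
  τ2 : τ * τ = 1
  comm : σ * τ = τ * σ
  gen : ∀ g : L ≃ₐ[K] L, ∃ i < q, g = σ ^ i ∨ g = σ ^ i * τ
  card : Nat.card (L ≃ₐ[K] L) = 2 * q
  cpx : ∀ (φ : L →+* ℂ) (x : L), φ (τ x) = (starRingEnd ℂ) (φ x)

namespace Tor

variable {K L : Type} [Field K] [NumberField K] [Field L] [NumberField L] [Algebra K L] {q : ℕ}
  (D : Tor K L q)

/-- an automorphism acting on `Lˣ` -/
def un (g : L ≃ₐ[K] L) : Lˣ →* Lˣ := Units.map (g : L →* L)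

/-- **The torus** -/
def T : Subgroup Lˣ where
  carrier := {x | (x : L) * D.τ x = 1 ∧ ∏ i ∈ Finset.range q, (D.σ ^ i) (x : L) = 1}
  one_mem' := by simp
  mul_mem' := by
    rintro x y ⟨h1, h2⟩ ⟨h3, h4⟩
    constructor
    · rw [Units.val_mul, map_mul]
      calc (x : L) * y * (D.τ x * D.τ y) = (x * D.τ x) * (y * D.τ y) := by ring
        _ = 1 := by rw [h1, h3, one_mul]
    · rw [Units.val_mul]
      simp only [map_mul]
      rw [Finset.prod_mul_distrib, h2, h4, one_mul]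
  inv_mem' := by
    rintro x ⟨h1, h2⟩
    constructor
    · rw [Units.val_inv_eq_inv_val, map_inv₀, ← mul_inv, h1, inv_one]
    · rw [Units.val_inv_eq_inv_val]
      simp only [map_inv₀]
      rw [Finset.prod_inv_distrib, h2, inv_one]

theorem mem_T {x : Lˣ} : x ∈ D.T ↔
    (x : L) * D.τ x = 1 ∧ ∏ i ∈ Finset.range q, (D.σ ^ i) (x : L) = 1 := Iff.rfl

end Tor

end Pool.Agent.ZT
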