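import Pool.Agent.Lib.ZT.Str

/-!
# The structure theorem with a given generator
-/

set_option autoImplicit false

namespace Pool.Agent.ZT

open NumberField IsDedekindDomain Polynomial Pool.Agent.ZD WithZero

namespace Tor

variable {K L : Type} [Field K] [NumberField K] [Field L] [NumberField L] [Algebra K L] {q : ℕ}
  (D : Tor K L q)

/-- Kronecker, with a given exponent -/
theorem kroG {μ : ℕ} (hμ : ∀ (ζ : L) (k : ℕ), 0 < k → ζ ^ k = 1 → ζ ^ μ = 1) {x : Lˣ} (hx : x ∈ D.T)
    (h : ∀ w : HeightOneSpectrum (𝓞 L), w.valuation L (x : L) = 1) : x ^ μ = 1 := by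
  apply Units.ext
  rw [Units.val_pow_eq_pow_val, Units.val_one]
  refine hμ (x : L) (Units.torsionOrder L) (Units.torsionOrder_pos L) ?_
  have h1 := congrArg (fun z : Lˣ => (z : L)) (D.kro hx h)
  rwa [Units.val_pow_eq_pow_val, Units.val_one] at h1

/-- **The structure theorem** with a given generator `π` of the `cn`-th power of the prime `w`, and a given
exponent `μ` which kills the roots of unity. -/
theorem strG [IsGalois K L] [DecidableEq (L ≃ₐ[K] L)] {v : HeightOneSpectrum (𝓞 K)} (hv : v ∈ Spl K L)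
    {w : HeightOneSpectrum (𝓞 L)} (hw : w ∈ abv L v) {cn μ : ℕ} {π : 𝓞 L} (hz : (π : L) ≠ 0)
    (hπw : ord w (π : L) = cn) (hπ' : ∀ w', w' ≠ w → ord w' (π : L) = 0)
    (hμ : ∀ (ζ : L) (k : ℕ), 0 < k → ζ ^ k = 1 → ζ ^ μ = 1) :
    (∀ u, u ∉ abv L v → D.oh u (D.gen1 hz) = 0) ∧
    (∀ j < q, D.oh (cj (D.σ ^ j) w) (D.gen1 hz) =
      cn * ((if j = 0 then 1 else 0) - if j = 1 then 1 else 0)) ∧
    ∀ y : Additive D.T, (∀ u, u ∉ abv L v → D.oh u y = 0) → ∃ k : Lam q,
      (μ * cn) • y = μ • k • (D.gen1 hz) ∧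
      ∀ i < q - 1, cf k i = ∑ j ∈ Finset.range (i + 1), D.oh (cj (D.σ ^ j) w) y := by
  have hq2 : 2 ≤ q := D.pq.two_le
  -- orders of the conjugates of `π`
  have hδ : ∀ g : L ≃ₐ[K] L, ord (cj g w) (π : L) = if g = 1 then (cn : ℤ) else 0 := by
    intro g
    split_ifs with h
    · rw [h, cj_one, hπw]
    · refine hπ' _ fun h' => h (cj_free hv hw ?_)
      rw [h', cj_one]
  have hout : ∀ (g : L ≃ₐ[K] L) u, u ∉ abv L v → ord u (g π) = 0 := by
    intro g u hu
    rw [ord_app]
    refine hπ' _ fun h => hu ?_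
    rw [← cj_cj_inv g u, h]
    exact cj_mem_abv g hw
  have hin : ∀ g g' : L ≃ₐ[K] L, ord (cj g w) (g' π) =
      if g = g' then (cn : ℤ) else 0 := by
    intro g g'
    rw [ord_app, ← cj_mul, hδ]
    congr 1
    rw [inv_mul_eq_one]
    exact propext eq_comm
  have hts : D.τ (D.σ (π : L)) = (D.σ * D.τ) (π : L) := by
    rw [D.comm]; rfl
  have hP1 : ∀ j < q, D.oh (cj (D.σ ^ j) w) (D.gen1 hz) =
      cn * ((if j = 0 then 1 else 0) - if j = 1 then 1 else 0) := by
    intro j hj
    have e1 : ord (cj (D.σ ^ j) w) (π : L) = if j = 0 then (cn : ℤ) else 0 := by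
      rw [hδ]
      congr 1
      apply propext
      constructor
      · intro h
        exact D.σ_pow_inj hj (by omega) (by rw [h, pow_zero])
      · rintro rfl
        rw [pow_zero]
    have e2 : ord (cj (D.σ ^ j) w) (D.σ (π : L)) = if j = 1 then (cn : ℤ) else 0 := by
      rw [hin]
      congr 1
      apply propext
      constructor
      · intro h
        exact D.σ_pow_inj hj (by omega) (by rw [h, pow_one])
      · rintro rfl
        rw [pow_one]
    have e3 : ord (cj (D.σ ^ j) w) (D.τ (π : L)) = 0 := by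
      rw [hin, if_neg fun h => D.τ_ne j h.symm]
    have e4 : ord (cj (D.σ ^ j) w) (D.τ (D.σ (π : L))) = 0 := by
      rw [hts, hin, if_neg]
      intro h
      refine D.τ_ne (j + (q - 1)) ?_
      have h5 : D.σ ^ (q - 1) * D.σ = 1 := by
        rw [← pow_succ, Nat.sub_add_cancel (by omega), D.σq]
      calc D.τ = (D.σ ^ (q - 1) * D.σ) * D.τ := by rw [h5, one_mul]
        _ = D.σ ^ (q - 1) * D.σ ^ j := by rw [mul_assoc, h]
        _ = D.σ ^ (j + (q - 1)) := by rw [← pow_add, add_comm]
    rw [oh_gen1, e1, e2, e3, e4]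
    split_ifs <;> ring
  have hP0 : ∀ u, u ∉ abv L v → D.oh u (D.gen1 hz) = 0 := by
    intro u hu
    rw [oh_gen1, hts, hout _ _ hu, hout _ _ hu, hout _ _ hu]
    have := hout 1 u hu
    rw [AlgEquiv.one_apply] at this
    rw [this]
    ring
  refine ⟨hP0, hP1, fun y hy => ?_⟩
  obtain ⟨s, hs⟩ : ∃ s : ℕ → ℤ, ∀ i, s i = ∑ j ∈ Finset.range (i + 1), D.oh (cj (D.σ ^ j) w) y :=
    ⟨_, fun _ => rfl⟩
  obtain ⟨k, hk⟩ : ∃ k : Lam q, k = ∑ i ∈ Finset.range (q - 1),
      (s i : Lam q) * (AdjoinRoot.root (cyclotomic q ℤ)) ^ i := ⟨_, rfl⟩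
  have hcf : ∀ i, cf k i = if i < q - 1 then s i else 0 := by
    intro i
    rw [hk]
    exact cf_sum D.pq s i
  refine ⟨k, ?_, fun i hi => by rw [hcf, if_pos hi, hs]⟩
  -- the orders agree
  have hsq : s (q - 1) = 0 := by
    rw [hs, Nat.sub_add_cancel (by omega)]
    exact D.sum_oh w y
  have hord : ∀ j < q, D.oh (cj (D.σ ^ j) w) (k • D.gen1 hz) =
      cn * D.oh (cj (D.σ ^ j) w) y := by
    intro j hj
    rw [oh_smul]
    have h1 : ∀ i ∈ Finset.range (q - 1), cf k i * ord (cj (D.σ ^ j) w) ((D.σ ^ i) (D.el (D.gen1 hz))) =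
        cn * ((if i = j then s i else 0) - if i + 1 = j then s i else 0) := by
      intro i hi
      have hi' := Finset.mem_range.1 hi
      rw [hcf, if_pos hi', ord_app, ← cj_mul]
      rcases Nat.lt_or_ge j i with hji | hji
      · -- `σ ^ (q + j - i)`
        have h2 : (D.σ ^ i)⁻¹ * D.σ ^ j = D.σ ^ (q + j - i) := by
          rw [inv_mul_eq_iff_eq_mul, ← pow_add]
          have : i + (q + j - i) = q + j := by omega
          rw [this, pow_add, D.σq, one_mul]
        rw [h2]
        have h3 := hP1 (q + j - i) (by omega)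
        rw [oh_apply] at h3
        rw [h3, if_neg (by omega), if_neg (by omega), if_neg (by omega), if_neg (by omega)]
        ring
      · have h2 : (D.σ ^ i)⁻¹ * D.σ ^ j = D.σ ^ (j - i) := by
          rw [inv_mul_eq_iff_eq_mul, ← pow_add]
          have : i + (j - i) = j := by omega
          rw [this]
        rw [h2]
        have h3 := hP1 (j - i) (by omega)
        rw [oh_apply] at h3
        rw [h3]
        have e1 : (j - i = 0) ↔ (i = j) := by omega
        have e2 : (j - i = 1) ↔ (i + 1 = j) := by omega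
        simp only [e1, e2]
        split_ifs <;> ring
    rw [Finset.sum_congr rfl h1, ← Finset.mul_sum, Finset.sum_sub_distrib]
    congr 1
    have h4 : ∑ i ∈ Finset.range (q - 1), (if i = j then s i else 0) = s j := by
      by_cases hjq : j < q - 1
      · rw [Finset.sum_eq_single j]
        · rw [if_pos rfl]
        · intro b _ hb
          rw [if_neg hb]
        · intro h
          exact absurd (Finset.mem_range.2 hjq) h
      · have : j = q - 1 := by omega
        rw [this, hsq]
        refine Finset.sum_eq_zero fun b hb => ?_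
        rw [if_neg]
        have := Finset.mem_range.1 hb
        omega
    have h5 : ∑ i ∈ Finset.range (q - 1), (if i + 1 = j then s i else 0) =
        if j = 0 then 0 else s (j - 1) := by
      split_ifs with hj0
      · refine Finset.sum_eq_zero fun b _ => ?_
        rw [if_neg]
        omega
      · rw [Finset.sum_eq_single (j - 1)]
        · rw [if_pos (by omega)]
        · intro b _ hb
          rw [if_neg]
          omega
        · intro h
          exact absurd (Finset.mem_range.2 (by omega)) h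
    rw [h4, h5]
    split_ifs with hj0
    · subst hj0
      rw [hs, sub_zero]
      simp
    · rw [hs, hs]
      have : j - 1 + 1 = j := by omega
      rw [this, Finset.sum_range_succ]
      ring
  -- the difference is a root of unity
  obtain ⟨z, hz'⟩ : ∃ z : Additive D.T, z = cn • y - k • D.gen1 hz := ⟨_, rfl⟩
  have hz0 : ∀ u, D.oh u z = 0 := by
    have h1 : ∀ j < q, D.oh (cj (D.σ ^ j) w) z = 0 := by
      intro j hj
      rw [hz', map_sub, map_nsmul, hord j hj, nsmul_eq_mul, sub_self]
    intro u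
    by_cases hu : u ∈ abv L v
    · obtain ⟨g, rfl⟩ := cj_trans hw hu
      obtain ⟨i, hi, hg | hg⟩ := D.gen g
      · rw [hg]
        exact h1 i hi
      · rw [hg, D.comm_all (D.σ ^ i) D.τ, cj_mul, oh_τ, h1 i hi, neg_zero]
    · rw [hz', map_sub, map_nsmul, hy u hu, smul_zero, oh_smul]
      rw [Finset.sum_eq_zero, sub_zero]
      intro i _
      rw [ord_app]
      have h2 := hP0 (cj (D.σ ^ i)⁻¹ u) fun h => hu (by
        rw [← cj_cj_inv (D.σ ^ i) u]
        exact cj_mem_abv _ h)
      rw [oh_apply] at h2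
      rw [h2, mul_zero]
  have hkro := D.kroG hμ (x := ((Additive.toMul z : D.T) : Lˣ)) (D.el_mem z) fun u =>
    (ord_eq_zero_iff u (D.el_ne z)).1 (hz0 u)
  have h0 : μ • z = 0 := by
    apply D.el_inj
    rw [el_nsmul, el_zero]
    have h1 := congrArg (fun a : Lˣ => (a : L)) hkro
    rw [Units.val_pow_eq_pow_val, Units.val_one] at h1
    exact h1
  rw [hz', nsmul_sub, sub_eq_zero, ← mul_nsmul'] at h0
  exact h0

end Tor

end Pool.Agent.ZT
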