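import Mathlib

/-!
# Abstract linking lemmas

`Λ` is a commutative ring, `p` a number which is not a zero divisor in `Λ` and such that `Λ / p` is a field
(hypotheses `Pr Λ p`).  Everything is additive.
-/

set_option autoImplicit false

namespace Pool.Agent.ZT

/-- `p` is not a zero divisor and `Λ / p` is a field -/
structure Pr (Λ : Type) [CommRing Λ] (p : ℕ) : Prop where
  nz : ∀ z : Λ, (p : Λ) * z = 0 → z = 0
  inv : ∀ z : Λ, ¬ (p : Λ) ∣ z → ∃ u v : Λ, u * z = 1 + p * v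

section

variable {Λ : Type} [CommRing Λ] {p : ℕ} (hp : Pr Λ p)

include hp

theorem Pr.nz' (n : ℕ) (z : Λ) (h : (p : Λ) ^ n * z = 0) : z = 0 := by
  induction n with
  | zero => simpa using h
  | succ n ih =>
    refine ih (hp.nz _ ?_)
    rw [← h]
    ring

theorem Pr.cancel {i j : ℕ} {z : Λ} (h : (p : Λ) ^ (i + j) ∣ (p : Λ) ^ i * z) : (p : Λ) ^ j ∣ z := by
  obtain ⟨w, hw⟩ := h
  refine ⟨w, ?_⟩
  have h1 : (p : Λ) ^ i * (z - p ^ j * w) = 0 := by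
    rw [mul_sub, hw]
    ring
  exact sub_eq_zero.1 (hp.nz' i _ h1)

theorem Pr.inv_pow {z : Λ} (hz : ¬ (p : Λ) ∣ z) (n : ℕ) : ∃ u v : Λ, u * z = 1 + p ^ n * v := by
  obtain ⟨u, v, huv⟩ := hp.inv z hz
  induction n with
  | zero => exact ⟨0, -1, by ring⟩
  | succ n ih =>
    obtain ⟨u', v', h'⟩ := ih
    -- `(1 + p v) (1 - p ^ n v')`-type combination
    refine ⟨u' - p ^ n * v' * u, -(v' * v), ?_⟩
    rw [sub_mul, h', mul_assoc ((p : Λ) ^ n * v'), huv]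
    ring

/-- exact power of `p` -/
theorem Pr.exact {k : Λ} {j : ℕ} (h : ¬ (p : Λ) ^ j ∣ k) :
    ∃ i < j, ∃ k' : Λ, k = (p : Λ) ^ i * k' ∧ ¬ (p : Λ) ∣ k' := by
  classical
  have hex : ∃ j, ¬ (p : Λ) ^ j ∣ k := ⟨j, h⟩
  have h1 := Nat.find_spec hex
  have h2 : Nat.find hex ≤ j := Nat.find_min' hex h
  have h3 : Nat.find hex ≠ 0 := by
    intro h0
    rw [h0, pow_zero] at h1
    exact h1 (one_dvd _)
  obtain ⟨i, hi⟩ := Nat.exists_eq_succ_of_ne_zero h3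
  have h4 : (p : Λ) ^ i ∣ k := by
    have := Nat.find_min hex (m := i) (by omega)
    exact not_not.1 this
  obtain ⟨k', hk'⟩ := h4
  refine ⟨i, by omega, k', hk', ?_⟩
  rintro ⟨w, hw⟩
  apply h1
  rw [hi, hk', hw]
  exact ⟨w, by rw [Nat.succ_eq_add_one]; ring⟩

end

/-- **Filtration** of a module by submodules: `F n = {y : s(y) ≥ n}`; `p` shifts by one from the level one on -/
structure Fil {Λ A : Type} [CommRing Λ] [AddCommGroup A] [Module Λ A] (p : ℕ)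
    (F : ℕ → Submodule Λ A) : Prop where
  anti : ∀ n, F (n + 1) ≤ F n
  up : ∀ n (y : A), y ∈ F n → 1 ≤ n → p • y ∈ F (n + 1)
  dn : ∀ n (y : A), p • y ∈ F (n + 1) → 1 ≤ n → y ∈ F n

section

variable {Λ A : Type} [CommRing Λ] [AddCommGroup A] [Module Λ A] {p : ℕ} {F : ℕ → Submodule Λ A}

theorem Fil.le (hF : Fil p F) {m n : ℕ} (h : m ≤ n) : F n ≤ F m := by
  induction n, h using Nat.le_induction with
  | base => exact le_rfl
  | succ n _ ih => exact (hF.anti n).trans ih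

theorem Fil.up_pow (hF : Fil p F) {n : ℕ} {y : A} (hn : 1 ≤ n) (hy : y ∈ F n) (i : ℕ) :
    (p : Λ) ^ i • y ∈ F (n + i) := by
  induction i with
  | zero => simpa using hy
  | succ i ih =>
    have h := hF.up _ _ ih (by omega)
    rw [pow_succ', mul_smul, Nat.cast_smul_eq_nsmul]
    exact h

theorem Fil.dn_pow (hF : Fil p F) {n : ℕ} {y : A} (hn : 1 ≤ n) (i : ℕ)
    (hy : (p : Λ) ^ i • y ∈ F (n + i)) : y ∈ F n := by
  induction i with
  | zero => simpa using hy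
  | succ i ih =>
    refine ih (hF.dn _ _ ?_ (by omega))
    rw [pow_succ', mul_smul, Nat.cast_smul_eq_nsmul] at hy
    exact hy

/-- **(S1)** `s(k y) = s(y) + v_p(k)` -/
theorem Fil.smul_iff (hF : Fil p F) (hp : Pr Λ p) {y : A} {l : ℕ} (hl : 1 ≤ l) (h1 : y ∈ F l)
    (h2 : y ∉ F (l + 1)) (k : Λ) (j : ℕ) : k • y ∈ F (l + j) ↔ (p : Λ) ^ j ∣ k := by
  constructor
  · intro h
    by_contra hk
    obtain ⟨i, hi, k', rfl, hk'⟩ := hp.exact hk
    rw [mul_smul] at h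
    have h3 : k' • y ∈ F (l + 1) := by
      refine hF.dn_pow (by omega) i (hF.le ?_ h)
      omega
    obtain ⟨u, v, huv⟩ := hp.inv k' hk'
    have h4 : u • k' • y ∈ F (l + 1) := (F (l + 1)).smul_mem u h3
    rw [← mul_smul, huv, add_smul, one_smul, mul_comm, mul_smul] at h4
    have h5 : v • ((p : Λ) • y) ∈ F (l + 1) := by
      refine (F (l + 1)).smul_mem v ?_
      have := hF.up_pow (Λ := Λ) hl h1 1
      rwa [pow_one] at this
    exact h2 (((F (l + 1)).add_mem_iff_left h5).1 h4)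
  · rintro ⟨k', rfl⟩
    rw [mul_smul]
    exact hF.up_pow hl ((F l).smul_mem k' h1) j

/-- **(S2), the linking lemma** -/
theorem link (hp : Pr Λ p) (pp : p.Prime) (B : Submodule Λ A) {x : A} {n : ℕ} (hn : n ≠ 0) (hx : n • x ∈ B)
    {k g : Λ} (hk : k • x ∈ B) (hg : ∀ m : ℕ, m.Coprime p → m • g • x ∉ B) (j : ℕ)
    (hj : (p : Λ) ^ j ∣ g) : (p : Λ) ^ (j + 1) ∣ k := by
  obtain ⟨N, m, hm, rfl⟩ := Nat.exists_eq_pow_mul_and_not_dvd hn p pp.ne_one
  have hmp : m.Coprime p := ((Nat.Prime.coprime_iff_not_dvd pp).2 hm).symm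
  by_contra hk'
  obtain ⟨i, hi, k', rfl, hk''⟩ := hp.exact hk'
  obtain ⟨u, v, huv⟩ := hp.inv_pow hk'' N
  have h1 : (u * ((p : Λ) ^ i * k')) • x ∈ B := by
    rw [mul_smul]
    exact B.smul_mem u hk
  have h2 : (m : Λ) • (u * ((p : Λ) ^ i * k')) • x ∈ B := B.smul_mem _ h1
  have h3 : (m : Λ) • (u * ((p : Λ) ^ i * k')) • x =
      ((m : Λ) * (p : Λ) ^ i) • x + ((p : Λ) ^ i * v) • ((p ^ N * m : ℕ) • x) := by
    rw [← Nat.cast_smul_eq_nsmul Λ, ← mul_smul, ← mul_smul, ← add_smul]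
    congr 1
    have : u * ((p : Λ) ^ i * k') = (p : Λ) ^ i * (u * k') := by ring
    rw [this, huv]
    push_cast
    ring
  rw [h3] at h2
  have h4 : ((m : Λ) * (p : Λ) ^ i) • x ∈ B :=
    (B.add_mem_iff_left (B.smul_mem _ hx)).1 h2
  obtain ⟨g', rfl⟩ := hj
  refine hg m hmp ?_
  have h5 : m • ((p : Λ) ^ j * g') • x =
      ((p : Λ) ^ (j - i) * g') • ((m : Λ) * (p : Λ) ^ i) • x := by
    rw [← Nat.cast_smul_eq_nsmul Λ, ← mul_smul, ← mul_smul]
    congr 1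
    have : (p : Λ) ^ j = (p : Λ) ^ (j - i) * (p : Λ) ^ i := by
      rw [← pow_add]
      congr 1
      omega
    rw [this]
    ring
  rw [h5]
  exact B.smul_mem _ h4

/-- **The core of the soundness.** -/
theorem core (hp : Pr Λ p) (pp : p.Prime) (hF : Fil p F) (B : Submodule Λ A) {x y : A} {l₁ l₂ n : ℕ}
    (hl₁ : 1 ≤ l₁) (x1 : x ∈ F l₁) (x2 : x ∉ F (l₁ + 1)) (hl₂ : 1 ≤ l₂) (y1 : y ∈ F l₂)
    (y2 : y ∉ F (l₂ + 1)) (hn : n ≠ 0) (hx : n • x ∈ B) {e f e' f' g k h t : Λ} {J : ℕ}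
    (H1 : e • x - f • y ∈ B) (H2 : e' • x - f' • y ∈ B)
    (H3 : ∀ m : ℕ, m.Coprime p → m • g • x ∉ B) (H4 : (e - h) • x ∈ F J) (H5 : (e' - k) • x ∈ F J)
    (H6 : g • x ∈ F J) (H6' : ∃ m, f • y ∉ F m)
    (H7 : ∀ m, f • y ∈ F m → (f' - t * f) • y ∈ F (m + J)) :
    (p : Λ) ^ (J - l₁) ∣ h * t - k := by
  rcases Nat.lt_or_ge J l₁ with hJl | hJl
  · have : J - l₁ = 0 := by omega
    rw [this, pow_zero]
    exact one_dvd _
  -- the exact power of `p` in `f`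
  obtain ⟨M, hM⟩ := H6'
  obtain ⟨j, _, f₁, hf, hf₁⟩ := hp.exact (k := f) (j := M) fun h0 =>
    hM (hF.le (by omega) ((hF.smul_iff hp hl₂ y1 y2 f M).2 h0))
  have hfy : f • y ∈ F (l₂ + j) := (hF.smul_iff hp hl₂ y1 y2 f j).2 ⟨f₁, hf⟩
  have h7 := H7 _ hfy
  obtain ⟨δ, hδ⟩ : (p : Λ) ^ (j + J) ∣ f' - t * f := by
    have h9 : l₂ + j + J = l₂ + (j + J) := by omega
    rw [h9] at h7
    exact (hF.smul_iff hp hl₂ y1 y2 _ _).1 h7
  -- the element which kills `x` modulo `B`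
  have hz : (f₁ * (e' - t * e) - (p : Λ) ^ J * δ * e) • x ∈ B := by
    have h8 : (f₁ * (e' - t * e) - (p : Λ) ^ J * δ * e) • x =
        f₁ • (e' • x - f' • y) - (f₁ * t + (p : Λ) ^ J * δ) • (e • x - f • y) := by
      have h9 : f₁ * f' = (f₁ * t + (p : Λ) ^ J * δ) * f := by
        have h10 : f' = t * f + (p : Λ) ^ (j + J) * δ := by
          rw [← hδ]
          ring
        rw [h10, hf]
        ring
      simp only [smul_sub, ← mul_smul, h9]
      rw [sub_sub_sub_cancel_right, ← sub_smul]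
      congr 1
      ring
    rw [h8]
    exact B.sub_mem (B.smul_mem _ H2) (B.smul_mem _ H1)
  have hg : (p : Λ) ^ (J - l₁) ∣ g := by
    refine (hF.smul_iff hp hl₁ x1 x2 g _).1 ?_
    have : l₁ + (J - l₁) = J := by omega
    rw [this]
    exact H6
  have h12 := link hp pp B hn hx hz H3 _ hg
  have h13 : (p : Λ) ^ (J - l₁) ∣ f₁ * (e' - t * e) := by
    have h14 : f₁ * (e' - t * e) = (f₁ * (e' - t * e) - (p : Λ) ^ J * δ * e) +
        (p : Λ) ^ J * (δ * e) := by ring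
    rw [h14]
    exact dvd_add ((pow_dvd_pow _ (by omega)).trans h12)
      (Dvd.dvd.mul_right (pow_dvd_pow _ (by omega)) _)
  have hd4 : (p : Λ) ^ (J - l₁) ∣ e' - t * e := by
    obtain ⟨u, v, huv⟩ := hp.inv_pow hf₁ (J - l₁)
    have h17 : e' - t * e = u * (f₁ * (e' - t * e)) - (p : Λ) ^ (J - l₁) * (v * (e' - t * e)) := by
      rw [← mul_assoc, huv]
      ring
    rw [h17]
    exact dvd_sub (h13.mul_left u) (dvd_mul_right _ _)
  have hc : ∀ z : Λ, z • x ∈ F J → (p : Λ) ^ (J - l₁) ∣ z := by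
    intro z hz
    refine (hF.smul_iff hp hl₁ x1 x2 z _).1 ?_
    have : l₁ + (J - l₁) = J := by omega
    rw [this]
    exact hz
  have h18 : h * t - k = (e' - k) - (e' - t * e) - t * (e - h) := by ring
  rw [h18]
  exact dvd_sub (dvd_sub (hc _ H5) hd4) ((hc _ H4).mul_left t)

end

end Pool.Agent.ZT
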