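import Pool.Agent.Lib.ZT.Abs
import Pool.Agent.Lib.ZT.Defs

/-!
# The ring `Lam q = ℤ[ζ_q]`: coordinates, the residue field at an inert prime
-/

set_option autoImplicit false

namespace Pool.Agent.ZT

open Polynomial

variable {q : ℕ}

/-- the representing polynomial of degree `< φ(q)` -/
noncomputable def rp (k : Lam q) : ℤ[X] := AdjoinRoot.modByMonicHom (cyclotomic.monic q ℤ) k

/-- the coordinates -/
noncomputable def cf (k : Lam q) (i : ℕ) : ℤ := (rp k).coeff i

theorem mk_rp (k : Lam q) : AdjoinRoot.mk (cyclotomic q ℤ) (rp k) = k :=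
  AdjoinRoot.mk_leftInverse (cyclotomic.monic q ℤ) k

theorem rp_add (k l : Lam q) : rp (k + l) = rp k + rp l := map_add _ _ _

theorem rp_sub (k l : Lam q) : rp (k - l) = rp k - rp l := map_sub _ _ _

theorem rp_zsmul (n : ℤ) (k : Lam q) : rp (n • k) = n • rp k := map_zsmul _ _ _

theorem rp_int_mul (n : ℤ) (k : Lam q) : rp ((n : Lam q) * k) = C n * rp k := by
  rw [← zsmul_eq_mul, rp_zsmul, zsmul_eq_mul, ← C_eq_intCast]
  rfl

theorem cf_add (k l : Lam q) (i : ℕ) : cf (k + l) i = cf k i + cf l i := by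
  unfold cf
  rw [rp_add, coeff_add]

theorem cf_sub (k l : Lam q) (i : ℕ) : cf (k - l) i = cf k i - cf l i := by
  unfold cf
  rw [rp_sub, coeff_sub]

theorem cf_int_mul (n : ℤ) (k : Lam q) (i : ℕ) : cf ((n : Lam q) * k) i = n * cf k i := by
  unfold cf
  rw [rp_int_mul, coeff_C_mul]

theorem rp_eq_zero {k : Lam q} (h : rp k = 0) : k = 0 := by
  rw [← mk_rp k, h, map_zero]

theorem rp_zero : rp (0 : Lam q) = 0 := map_zero _

theorem rp_mk_of_lt (f : ℤ[X]) (hf : f.degree < (cyclotomic q ℤ).degree) :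
    rp (AdjoinRoot.mk (cyclotomic q ℤ) f : Lam q) = f := by
  unfold rp
  rw [AdjoinRoot.modByMonicHom_mk, (modByMonic_eq_self_iff (cyclotomic.monic q ℤ)).2 hf]

theorem degree_cyc (hq : q.Prime) : (cyclotomic q ℤ).degree = (q - 1 : ℕ) := by
  rw [degree_cyclotomic, Nat.totient_prime hq]

theorem rp_degree_lt (hq : q.Prime) (k : Lam q) : (rp k).degree < (q - 1 : ℕ) := by
  obtain ⟨f, rfl⟩ := AdjoinRoot.mk_surjective (g := cyclotomic q ℤ) k
  unfold rp
  rw [AdjoinRoot.modByMonicHom_mk, ← degree_cyc hq]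
  exact degree_modByMonic_lt _ (cyclotomic.monic q ℤ)

theorem cf_eq_zero (hq : q.Prime) (k : Lam q) {i : ℕ} (hi : q - 1 ≤ i) : cf k i = 0 := by
  unfold cf
  refine coeff_eq_zero_of_degree_lt ((rp_degree_lt hq k).trans_le ?_)
  exact_mod_cast hi

/-- `k = ∑ cf k i ζ ^ i` -/
theorem eq_sum (hq : q.Prime) (k : Lam q) :
    k = ∑ i ∈ Finset.range (q - 1), (cf k i : Lam q) * (AdjoinRoot.root (cyclotomic q ℤ)) ^ i := by
  have h1 : rp k = ∑ i ∈ Finset.range (q - 1), C (cf k i) * X ^ i := by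
    rw [as_sum_range' (rp k) (q - 1) ?_]
    · refine Finset.sum_congr rfl fun i _ => ?_
      rw [C_mul_X_pow_eq_monomial]
      rfl
    · by_cases h0 : rp k = 0
      · rw [h0, natDegree_zero]
        have := hq.two_le
        omega
      · rw [natDegree_lt_iff_degree_lt h0]
        exact rp_degree_lt hq k
  calc k = AdjoinRoot.mk (cyclotomic q ℤ) (rp k) := (mk_rp k).symm
    _ = _ := by
      rw [h1, map_sum]
      refine Finset.sum_congr rfl fun i _ => ?_
      rw [map_mul, map_pow, AdjoinRoot.mk_X, AdjoinRoot.mk_C]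
      congr 1

/-- the coordinates of `∑ c i ζ ^ i` -/
theorem cf_sum (hq : q.Prime) (c : ℕ → ℤ) (j : ℕ) :
    cf (∑ i ∈ Finset.range (q - 1), (c i : Lam q) * (AdjoinRoot.root (cyclotomic q ℤ)) ^ i) j =
      if j < q - 1 then c j else 0 := by
  have h1 : (∑ i ∈ Finset.range (q - 1), (c i : Lam q) * (AdjoinRoot.root (cyclotomic q ℤ)) ^ i) =
      AdjoinRoot.mk (cyclotomic q ℤ) (∑ i ∈ Finset.range (q - 1), C (c i) * X ^ i) := by
    rw [map_sum]
    refine Finset.sum_congr rfl fun i _ => ?_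
    rw [map_mul, map_pow, AdjoinRoot.mk_X, AdjoinRoot.mk_C]
    congr 1
  have h2 : (∑ i ∈ Finset.range (q - 1), C (c i) * X ^ i : ℤ[X]).degree < (cyclotomic q ℤ).degree := by
    rw [degree_cyc hq]
    refine (degree_sum_le _ _).trans_lt ?_
    rw [Finset.sup_lt_iff (WithBot.bot_lt_coe _)]
    intro i hi
    refine (degree_C_mul_X_pow_le _ _).trans_lt ?_
    exact_mod_cast Finset.mem_range.1 hi
  unfold cf
  rw [h1, rp_mk_of_lt _ h2, finsetSum_coeff]
  simp only [coeff_C_mul, coeff_X_pow]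
  split_ifs with hj
  · rw [Finset.sum_eq_single j]
    · simp
    · intro b _ hb
      rw [if_neg (fun h => hb h.symm), mul_zero]
    · intro h
      exact absurd (Finset.mem_range.2 hj) h
  · refine Finset.sum_eq_zero fun b hb => ?_
    rw [if_neg, mul_zero]
    intro h
    exact hj (h ▸ Finset.mem_range.1 hb)

/-- the coordinates of an integer -/
theorem cf_int (hq : q.Prime) (n : ℤ) (i : ℕ) : cf (n : Lam q) i = if i = 0 then n else 0 := by
  have h1 : (n : Lam q) = AdjoinRoot.mk (cyclotomic q ℤ) (C n) := by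
    rw [AdjoinRoot.mk_C]
    exact (eq_intCast _ _).symm
  unfold cf
  rw [h1, rp_mk_of_lt, coeff_C]
  rw [degree_cyc hq]
  refine degree_C_le.trans_lt ?_
  have := hq.two_le
  exact_mod_cast (by omega : 0 < q - 1)

theorem int_dvd_iff (n : ℤ) (k : Lam q) : (n : Lam q) ∣ k ↔ ∀ i, n ∣ cf k i := by
  constructor
  · rintro ⟨l, rfl⟩ i
    rw [cf_int_mul]
    exact dvd_mul_right _ _
  · intro h
    have h1 : C n ∣ rp k := (C_dvd_iff_dvd_coeff n (rp k)).2 h
    obtain ⟨r, hr⟩ := h1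
    refine ⟨AdjoinRoot.mk (cyclotomic q ℤ) r, ?_⟩
    rw [← mk_rp k, hr, map_mul, AdjoinRoot.mk_C]
    congr 1

theorem pow_dvd_iff (p j : ℕ) (k : Lam q) : (p : Lam q) ^ j ∣ k ↔ ∀ i, (p : ℤ) ^ j ∣ cf k i := by
  have h : (p : Lam q) ^ j = (((p : ℤ) ^ j : ℤ) : Lam q) := by push_cast; rfl
  rw [h, int_dvd_iff]

/-- **`Λ / p` is a field** if `p` is a primitive root modulo `q` -/
theorem pr_lam (hq : q.Prime) {p : ℕ} (hp : p.Prime) (hpq : ¬ p ∣ q)
    (hord : orderOf (p : ZMod q) = q - 1) : Pr (Lam q) p := by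
  have : Fact p.Prime := ⟨hp⟩
  have : Fact q.Prime := ⟨hq⟩
  have hirr : Irreducible (cyclotomic q (ZMod p)) := by
    refine ZMod.irreducible_of_dvd_cyclotomic_of_natDegree hpq dvd_rfl ?_
    rw [natDegree_cyclotomic, Nat.totient_prime hq, ← orderOf_units, ZMod.coe_unitOfCoprime, hord]
  set φ : ℤ[X] →+* (ZMod p)[X] := mapRingHom (Int.castRingHom (ZMod p)) with hφ
  have hφs : Function.Surjective φ :=
    Polynomial.map_surjective _ (ZMod.ringHom_surjective (Int.castRingHom (ZMod p)))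
  have hφk : ∀ f : ℤ[X], φ f = 0 → ∃ g : ℤ[X], f = C (p : ℤ) * g := by
    intro f hf
    have h1 : C (p : ℤ) ∣ f := by
      rw [C_dvd_iff_dvd_coeff]
      intro i
      have h2 := congrArg (fun r => r.coeff i) hf
      simp only [hφ, coe_mapRingHom, coeff_map, coeff_zero] at h2
      exact (ZMod.intCast_zmod_eq_zero_iff_dvd _ p).1 h2
    exact h1
  have hφc : φ (cyclotomic q ℤ) = cyclotomic q (ZMod p) := map_cyclotomic _ _
  have hmkC : ∀ g : ℤ[X], AdjoinRoot.mk (cyclotomic q ℤ) (C (p : ℤ) * g) =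
      (p : Lam q) * AdjoinRoot.mk (cyclotomic q ℤ) g := by
    intro g
    rw [map_mul, AdjoinRoot.mk_C]
    congr 1
  constructor
  · intro z hz
    apply rp_eq_zero
    have h1 := rp_int_mul (q := q) (p : ℤ) z
    have h2 : (((p : ℤ) : Lam q)) * z = 0 := by
      rw [← hz]
      push_cast
      rfl
    rw [h2, rp_zero] at h1
    have h3 : (C (p : ℤ) : ℤ[X]) ≠ 0 := by
      rw [Ne, C_eq_zero]
      exact_mod_cast hp.ne_zero
    exact (mul_eq_zero.1 h1.symm).resolve_left h3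
  · intro z hz
    obtain ⟨f, rfl⟩ := AdjoinRoot.mk_surjective (g := cyclotomic q ℤ) z
    have h1 : ¬ cyclotomic q (ZMod p) ∣ φ f := by
      rintro ⟨g, hg⟩
      obtain ⟨g', rfl⟩ := hφs g
      have h2 : φ (f - cyclotomic q ℤ * g') = 0 := by
        rw [map_sub, map_mul, hφc, hg, sub_self]
      obtain ⟨r, hr⟩ := hφk _ h2
      apply hz
      refine ⟨AdjoinRoot.mk (cyclotomic q ℤ) r, ?_⟩
      rw [← hmkC, ← hr, map_sub, map_mul, AdjoinRoot.mk_self, zero_mul, sub_zero]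
    obtain ⟨a, b, hab⟩ := (hirr.coprime_iff_not_dvd.2 h1).symm
    obtain ⟨a', rfl⟩ := hφs a
    obtain ⟨b', rfl⟩ := hφs b
    have h2 : φ (a' * f + b' * cyclotomic q ℤ - 1) = 0 := by
      rw [map_sub, map_add, map_mul, map_mul, hφc, map_one, hab, sub_self]
    obtain ⟨r, hr⟩ := hφk _ h2
    refine ⟨AdjoinRoot.mk (cyclotomic q ℤ) a', AdjoinRoot.mk (cyclotomic q ℤ) r, ?_⟩
    rw [← map_mul, ← hmkC, ← hr, map_sub, map_add, map_mul _ b', AdjoinRoot.mk_self, mul_zero,
      add_zero, map_one]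
    ring

end Pool.Agent.ZT
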