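import Pool.Agent.Lib.ZT.Val

/-!
# Congruence submodules of the torus
-/

set_option autoImplicit false

namespace Pool.Agent.ZT

open NumberField IsDedekindDomain Polynomial Pool.Agent.ZD WithZero

namespace Tor

variable {K L : Type} [Field K] [NumberField K] [Field L] [NumberField L] [Algebra K L] {q : ℕ}
  (D : Tor K L q)

/-- a subgroup of the torus which is stable under `σ` is a submodule -/
def toSub (H : AddSubgroup (Additive D.T))
    (hH : ∀ x ∈ H, Additive.ofMul (D.gT D.σ (Additive.toMul x)) ∈ H) :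
    Submodule (Lam q) (Additive D.T) :=
  { H with
    smul_mem' := by
      intro k x hx
      obtain ⟨f, rfl⟩ := AdjoinRoot.mk_surjective (g := cyclotomic q ℤ) k
      rw [mk_smul, aeval_eq_sum_range, LinearMap.sum_apply]
      have h1 : ∀ i : ℕ, (D.sg ^ i) x ∈ H := by
        intro i
        induction i with
        | zero => exact hx
        | succ i ih =>
          rw [pow_succ', Module.End.mul_apply]
          exact hH _ ih
      exact H.sum_mem fun i _ => H.zsmul_mem (h1 i) _ }

theorem mem_toSub {H : AddSubgroup (Additive D.T)}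
    {hH : ∀ x ∈ H, Additive.ofMul (D.gT D.σ (Additive.toMul x)) ∈ H} {x : Additive D.T} :
    x ∈ D.toSub H hH ↔ x ∈ H := Iff.rfl

/-- the element of `L` -/
def el (x : Additive D.T) : L := ((Additive.toMul x : D.T) : Lˣ)

theorem el_add (x y : Additive D.T) : D.el (x + y) = D.el x * D.el y := rfl

theorem el_zero : D.el 0 = 1 := rfl

theorem el_neg (x : Additive D.T) : D.el (-x) = (D.el x)⁻¹ := by
  unfold el
  rw [toMul_neg, Subgroup.coe_inv, Units.val_inv_eq_inv_val]

theorem el_sub (x y : Additive D.T) : D.el (x - y) = D.el x / D.el y := by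
  rw [sub_eq_add_neg, el_add, el_neg, div_eq_mul_inv]

theorem el_nsmul (n : ℕ) (x : Additive D.T) : D.el (n • x) = D.el x ^ n := by
  induction n with
  | zero => rw [zero_smul, el_zero, pow_zero]
  | succ n ih => rw [succ_nsmul, el_add, ih, pow_succ]

theorem el_zsmul (n : ℤ) (x : Additive D.T) : D.el (n • x) = D.el x ^ n := by
  cases n with
  | ofNat n => simpa using D.el_nsmul n x
  | negSucc n => rw [negSucc_zsmul, el_neg, el_nsmul, zpow_negSucc]

theorem el_ne (x : Additive D.T) : D.el x ≠ 0 := Units.ne_zero _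

theorem el_mem (x : Additive D.T) : ((Additive.toMul x : D.T) : Lˣ) ∈ D.T := (Additive.toMul x).2

theorem el_root (x : Additive D.T) :
    D.el ((AdjoinRoot.root (cyclotomic q ℤ) : Lam q) • x) = D.σ (D.el x) := by
  rw [root_smul]
  rfl

theorem el_inj {x y : Additive D.T} (h : D.el x = D.el y) : x = y := by
  apply Additive.toMul.injective
  apply Subtype.ext
  apply Units.ext
  exact h

/-- the value of `y` is one if `y - 1` is small -/
theorem el_one_of_sub {S : Set (HeightOneSpectrum (𝓞 L))} (hS : ∀ (g : L ≃ₐ[K] L), ∀ w ∈ S, cj g w ∈ S)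
    {x : Additive D.T} (h : ∀ w ∈ S, w.valuation L (D.el x - 1) ≤ 1) :
    ∀ w ∈ S, w.valuation L (D.el x) = 1 := by
  refine D.one_of_le hS (D.el_mem x) fun w hw => ?_
  have h1 : D.el x = (D.el x - 1) + 1 := by ring
  change w.valuation L (D.el x) ≤ 1
  rw [h1]
  exact (Valuation.map_add _ _ _).trans (max_le (h w hw) (by rw [map_one]))

theorem exp_neg_le_one (n : ℕ) : (exp (-(n : ℤ)) : ℤᵐ⁰) ≤ 1 := by
  rw [← exp_zero, exp_le_exp]
  omega

/-- **Congruence submodule** -/
def Lv (S : Set (HeightOneSpectrum (𝓞 L))) (hS : ∀ (g : L ≃ₐ[K] L), ∀ w ∈ S, cj g w ∈ S) (n : ℕ) :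
    Submodule (Lam q) (Additive D.T) :=
  D.toSub
    { carrier := {x | ∀ w ∈ S, w.valuation L (D.el x - 1) ≤ exp (-(n : ℤ))}
      zero_mem' := fun w _ => by rw [el_zero, sub_self, map_zero]; exact zero_le
      add_mem' := by
        intro x y hx hy w hw
        have hy1 := D.el_one_of_sub hS (x := y) (fun w hw => (hy w hw).trans (exp_neg_le_one n)) w hw
        have h1 : D.el (x + y) - 1 = (D.el x - 1) * D.el y + (D.el y - 1) := by
          rw [el_add]
          ring
        rw [h1]
        refine (Valuation.map_add _ _ _).trans (max_le ?_ (hy w hw))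
        rw [map_mul, hy1, mul_one]
        exact hx w hw
      neg_mem' := by
        intro x hx w hw
        have hx1 := D.el_one_of_sub hS (x := x) (fun w hw => (hx w hw).trans (exp_neg_le_one n)) w hw
        have h1 : D.el (-x) - 1 = -((D.el x - 1) * (D.el x)⁻¹) := by
          rw [el_neg]
          have := D.el_ne x
          field_simp
          ring
        rw [h1, Valuation.map_neg, map_mul, map_inv₀, hx1, inv_one, mul_one]
        exact hx w hw }
    (by
      intro x hx w hw
      have h1 : D.el (Additive.ofMul (D.gT D.σ (Additive.toMul x))) - 1 = D.σ (D.el x - 1) := by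
        rw [map_sub, map_one]
        rfl
      rw [h1, val_app]
      exact hx _ (hS _ _ hw))

theorem mem_Lv {S : Set (HeightOneSpectrum (𝓞 L))} {hS : ∀ (g : L ≃ₐ[K] L), ∀ w ∈ S, cj g w ∈ S} {n : ℕ}
    {x : Additive D.T} : x ∈ D.Lv S hS n ↔ ∀ w ∈ S, w.valuation L (D.el x - 1) ≤ exp (-(n : ℤ)) := Iff.rfl

/-- **The filtration at `v`** -/
def Fv (v : HeightOneSpectrum (𝓞 K)) (n : ℕ) : Submodule (Lam q) (Additive D.T) :=
  D.Lv (abv L v) (fun g _ hw => cj_mem_abv g hw) n

theorem mem_Fv {v : HeightOneSpectrum (𝓞 K)} {n : ℕ} {x : Additive D.T} :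
    x ∈ D.Fv v n ↔ ∀ w ∈ abv L v, w.valuation L (D.el x - 1) ≤ exp (-(n : ℤ)) := Iff.rfl

/-- **The elements which are congruent to one modulo all conjugates of `Q`** -/
def Bq (Q : HeightOneSpectrum (𝓞 L)) : Submodule (Lam q) (Additive D.T) :=
  D.Lv {w | ∃ g : L ≃ₐ[K] L, w = cj g Q} (by
    rintro g _ ⟨h, rfl⟩
    exact ⟨g * h, (cj_mul g h Q).symm⟩) 1

theorem mem_Bq {Q : HeightOneSpectrum (𝓞 L)} {x : Additive D.T} :
    x ∈ D.Bq Q ↔ ∀ g : L ≃ₐ[K] L, (cj g Q).valuation L (D.el x - 1) < 1 := by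
  constructor
  · intro h g
    rw [lt_one_iff_le_exp]
    exact h _ ⟨g, rfl⟩
  · rintro h _ ⟨g, rfl⟩
    exact (lt_one_iff_le_exp _).1 (h g)

end Tor

end Pool.Agent.ZT
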