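import Pool.Agent.Lib.ZT.Mod
import Pool.Agent.Lib.ZT.Lam

/-!
# The torus and the valuations of `L`
-/

set_option autoImplicit false

namespace Pool.Agent.ZT

open NumberField IsDedekindDomain Polynomial Pool.Agent.ZD WithZero

section gen

variable {K L : Type} [Field K] [NumberField K] [Field L] [NumberField L] [Algebra K L]

theorem cj_inv_cj (g : L ≃ₐ[K] L) (w : HeightOneSpectrum (𝓞 L)) : cj g⁻¹ (cj g w) = w := by
  rw [← cj_mul, inv_mul_cancel, cj_one]

theorem cj_cj_inv (g : L ≃ₐ[K] L) (w : HeightOneSpectrum (𝓞 L)) : cj g (cj g⁻¹ w) = w := by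
  rw [← cj_mul, mul_inv_cancel, cj_one]

theorem cj_inj (g : L ≃ₐ[K] L) {w w' : HeightOneSpectrum (𝓞 L)} (h : cj g w = cj g w') : w = w' := by
  rw [← cj_inv_cj g w, h, cj_inv_cj]

theorem val_app (g : L ≃ₐ[K] L) (w : HeightOneSpectrum (𝓞 L)) (x : L) :
    w.valuation L (g x) = (cj g⁻¹ w).valuation L x := by
  rw [cj_val', inv_inv]

theorem one_of_pow {a : ℤᵐ⁰} {n : ℕ} (hn : n ≠ 0) (h : a ^ n = 1) : a = 1 := by
  rcases lt_trichotomy a 1 with h1 | h1 | h1
  · exact absurd h (pow_lt_one₀ zero_le' h1 hn).ne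
  · exact h1
  · exact absurd h (one_lt_pow₀ h1 hn).ne'

theorem lt_one_iff_le_exp (a : ℤᵐ⁰) : a < 1 ↔ a ≤ exp (-1) := by
  have h : (exp (-1) : ℤᵐ⁰) = exp (-1) := rfl
  by_cases h0 : a = 0
  · subst h0
    simp
  · obtain ⟨n, rfl⟩ : ∃ n : ℤ, a = exp n := ⟨log a, (exp_log h0).symm⟩
    rw [← exp_zero, exp_lt_exp, exp_le_exp]
    omega

end gen

namespace Tor

variable {K L : Type} [Field K] [NumberField K] [Field L] [NumberField L] [Algebra K L] {q : ℕ}
  (D : Tor K L q)

/-- units of the torus: integrality at all conjugates is enough -/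
theorem one_of_le {S : Set (HeightOneSpectrum (𝓞 L))} (hS : ∀ (g : L ≃ₐ[K] L), ∀ w ∈ S, cj g w ∈ S)
    {x : Lˣ} (hx : x ∈ D.T) (h : ∀ w ∈ S, w.valuation L (x : L) ≤ 1) :
    ∀ w ∈ S, w.valuation L (x : L) = 1 := by
  intro w hw
  have h1 : w.valuation L (D.τ x) ≤ 1 := by
    rw [val_app]
    exact h _ (hS _ _ hw)
  have h2 : w.valuation L (x : L) * w.valuation L (D.τ x) = 1 := by
    rw [← map_mul, (D.mem_T.1 hx).1, map_one]
  refine le_antisymm (h w hw) ?_
  rw [← h2]
  exact mul_le_of_le_one_right zero_le' h1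

theorem one_of_le_abv {v : HeightOneSpectrum (𝓞 K)} {x : Lˣ} (hx : x ∈ D.T)
    (h : ∀ w ∈ abv L v, w.valuation L (x : L) ≤ 1) :
    ∀ w ∈ abv L v, w.valuation L (x : L) = 1 :=
  D.one_of_le (fun g _ hw => cj_mem_abv g hw) hx h

/-- `σ` fixes the primes over `v` if there are at most two of them -/
theorem cj_σ_eq {v : HeightOneSpectrum (𝓞 K)} (h2 : (abv L v).ncard ≤ 2)
    {w : HeightOneSpectrum (𝓞 L)} (hw : w ∈ abv L v) : cj D.σ w = w := by
  by_contra hne
  have h1 : cj D.σ w ∈ abv L v := cj_mem_abv _ hw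
  have h3 : cj D.σ (cj D.σ w) ∈ abv L v := cj_mem_abv _ h1
  have h4 : cj D.σ (cj D.σ w) = w := by
    by_contra h5
    have h6 : cj D.σ (cj D.σ w) ≠ cj D.σ w := fun h => hne (cj_inj _ h)
    have h7 : ({w, cj D.σ w, cj D.σ (cj D.σ w)} : Set (HeightOneSpectrum (𝓞 L))).ncard = 3 := by
      rw [Set.ncard_insert_of_notMem, Set.ncard_insert_of_notMem, Set.ncard_singleton]
      · rw [Set.mem_singleton_iff]
        exact fun h => h6 h.symm
      · rw [Set.mem_insert_iff, Set.mem_singleton_iff]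
        rintro (h | h)
        · exact hne h.symm
        · exact h5 h.symm
    have h8 : ({w, cj D.σ w, cj D.σ (cj D.σ w)} : Set (HeightOneSpectrum (𝓞 L))) ⊆ abv L v := by
      rintro u (rfl | rfl | rfl)
      · exact hw
      · exact h1
      · exact h3
    have h9 := Set.ncard_le_ncard h8 (finite_abv v)
    omega
  have h5 : ∀ n : ℕ, cj (D.σ ^ (2 * n)) w = w := by
    intro n
    induction n with
    | zero => rw [mul_zero, pow_zero, cj_one]
    | succ n ih =>
      have : D.σ ^ (2 * (n + 1)) = D.σ * (D.σ * D.σ ^ (2 * n)) := by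
        rw [← pow_succ', ← pow_succ']
        congr 1
      rw [this, cj_mul, cj_mul, ih, h4]
  obtain ⟨m, hm⟩ := D.pq.eq_two_or_odd'.resolve_left D.q2
  have h6 := h5 (m + 1)
  have h7 : D.σ ^ (2 * (m + 1)) = D.σ := by
    have : 2 * (m + 1) = q + 1 := by omega
    rw [this, pow_succ, D.σq, one_mul]
  rw [h7] at h6
  exact hne h6

theorem cj_pow_eq {w : HeightOneSpectrum (𝓞 L)} (h : cj D.σ w = w) (n : ℕ) : cj (D.σ ^ n) w = w := by
  induction n with
  | zero => rw [pow_zero, cj_one]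
  | succ n ih => rw [pow_succ', cj_mul, ih, h]

/-- elements of norm one are units at the primes which are fixed by `σ` -/
theorem ins' {w : HeightOneSpectrum (𝓞 L)} (h : cj D.σ w = w) {x : L}
    (hx : ∏ i ∈ Finset.range q, (D.σ ^ i) x = 1) : w.valuation L x = 1 := by
  have h1 : ∀ i ∈ Finset.range q, w.valuation L ((D.σ ^ i) x) = w.valuation L x := by
    intro i _
    nth_rw 1 [← D.cj_pow_eq h i]
    exact cj_val _ _ _
  have h2 := congrArg (w.valuation L) hx
  rw [map_prod, map_one, Finset.prod_congr rfl h1, Finset.prod_const, Finset.card_range] at h2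
  exact one_of_pow D.pq.ne_zero h2

theorem ins {v : HeightOneSpectrum (𝓞 K)} (h2 : (abv L v).ncard ≤ 2) {x : L}
    (hx : ∏ i ∈ Finset.range q, (D.σ ^ i) x = 1) : ∀ w ∈ abv L v, w.valuation L x = 1 :=
  fun _ hw => D.ins' (D.cj_σ_eq h2 hw) hx

/-- **Kronecker** -/
theorem kro {x : Lˣ} (hx : x ∈ D.T)
    (h : ∀ w : HeightOneSpectrum (𝓞 L), w.valuation L (x : L) = 1) :
    x ^ (Units.torsionOrder L) = 1 := by
  obtain ⟨a, ha⟩ := HeightOneSpectrum.mem_integers_of_valuation_le_one L (x : L) fun w => (h w).le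
  have hx' : x⁻¹ ∈ D.T := D.T.inv_mem hx
  obtain ⟨b, hb⟩ := HeightOneSpectrum.mem_integers_of_valuation_le_one L ((x⁻¹ : Lˣ) : L) fun w => by
    rw [Units.val_inv_eq_inv_val, map_inv₀, h w, inv_one]
  have hab : a * b = 1 := by
    apply RingOfIntegers.ext
    change (algebraMap (𝓞 L) L a) * (algebraMap (𝓞 L) L b) = 1
    rw [ha, hb, Units.mul_inv]
  let u : (𝓞 L)ˣ := ⟨a, b, hab, by rw [mul_comm, hab]⟩
  have hn : ∀ φ : L →+* ℂ, ‖φ (x : L)‖ = 1 := by
    intro φ
    have h1 := congrArg φ (D.mem_T.1 hx).1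
    rw [map_mul, D.cpx, map_one, Complex.mul_conj] at h1
    have h2 : Complex.normSq (φ x) = 1 := by exact_mod_cast h1
    rw [Complex.normSq_eq_norm_sq] at h2
    nlinarith [norm_nonneg (φ (x : L))]
  obtain ⟨n, hn0, hn1⟩ := NumberField.Embeddings.pow_eq_one_of_norm_eq_one L ℂ (x := (x : L))
    (by rw [← ha]; exact RingOfIntegers.isIntegral_coe a) hn
  have hu : u ∈ Units.torsion L := by
    rw [Units.torsion, CommGroup.mem_torsion, isOfFinOrder_iff_pow_eq_one]
    refine ⟨n, hn0, ?_⟩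
    apply Units.ext
    apply RingOfIntegers.ext
    change (algebraMap (𝓞 L) L a) ^ n = 1
    rw [ha, hn1]
  have h3 : u ^ (Units.torsionOrder L) = 1 := by
    have h4 := pow_card_eq_one' (G := Units.torsion L) (x := ⟨u, hu⟩)
    exact congrArg Subtype.val h4
  apply Units.ext
  rw [Units.val_pow_eq_pow_val]
  have h6 := congrArg (fun z : (𝓞 L)ˣ => algebraMap (𝓞 L) L (z : 𝓞 L)) h3
  simp only [Units.val_pow_eq_pow_val, map_pow, Units.val_one, map_one] at h6
  rw [← ha]
  exact h6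

end Tor

end Pool.Agent.ZT
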